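import Mathlib

/-! Simplicity of `GL_n(F_2)` for `n ≥ 3`, by transvections. -/

namespace H430.LF

set_option linter.unusedSectionVars false

open Matrix

abbrev K := ZMod 2

variable {n : Type} [Fintype n] [DecidableEq n]

theorem k2 (x : K) : x = 0 ∨ x = 1 := by revert x; decide

theorem kadd (x : K) : x + x = 0 := by revert x; decide

theorem madd {l m : Type} (x : Matrix l m K) : x + x = 0 := by
  ext i j; simp [kadd]

theorem vadd (x : n → K) : x + x = 0 := by
  ext i; simp [kadd]

/-- separation -/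
theorem sep (u w : n → K) (hu : u ≠ 0) (huw : u ≠ w) : ∃ h : n → K, h ⬝ᵥ w = 0 ∧ h ⬝ᵥ u = 1 := by
  obtain ⟨i, hi⟩ : ∃ i, u i ≠ 0 := by
    by_contra hno
    push Not at hno
    exact hu (funext hno)
  have hi1 : u i = 1 := (k2 (u i)).resolve_left hi
  rcases k2 (w i) with h0 | h1
  · exact ⟨Pi.single i 1, by simp [h0], by simp [hi1]⟩
  · obtain ⟨j, hj⟩ : ∃ j, u j ≠ w j := by
      by_contra hno
      push Not at hno
      exact huw (funext hno)
    rcases k2 (u j) with hj0 | hj1
    · have hw : w j = 1 := (k2 (w j)).resolve_left (fun h => hj (by rw [hj0, h]))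
      exact ⟨Pi.single i 1 + Pi.single j 1, by simp [add_dotProduct, h1, hw, kadd],
        by simp [add_dotProduct, hi1, hj0]⟩
    · have hw : w j = 0 := by
        rcases k2 (w j) with h | h
        · exact h
        · exact absurd (by rw [hj1, h]) hj
      exact ⟨Pi.single j 1, by simp [hw], by simp [hj1]⟩

/-- a common nonzero annihilator -/
theorem ann2 (hn : 3 ≤ Fintype.card n) (u w : n → K) :
    ∃ h : n → K, h ≠ 0 ∧ h ⬝ᵥ u = 0 ∧ h ⬝ᵥ w = 0 := by
  let f : (n → K) →ₗ[K] (Fin 2 → K) :=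
    { toFun := fun h => ![h ⬝ᵥ u, h ⬝ᵥ w]
      map_add' := by intro x y; ext i; fin_cases i <;> simp [add_dotProduct]
      map_smul' := by intro c x; ext i; fin_cases i <;> simp [smul_dotProduct] }
  have h1 : LinearMap.ker f ≠ ⊥ := by
    apply LinearMap.ker_ne_bot_of_finrank_lt
    simp only [Module.finrank_fintype_fun_eq_card, Fintype.card_fin]
    omega
  obtain ⟨h, hh, hh0⟩ := (Submodule.ne_bot_iff _).1 h1
  have h2 : f h = 0 := hh
  refine ⟨h, hh0, ?_, ?_⟩
  · have := congrFun h2 0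
    simpa [f] using this
  · have := congrFun h2 1
    simpa [f] using this

theorem vmv_mul (w h w' h' : n → K) :
    vecMulVec w h * vecMulVec w' h' = (h ⬝ᵥ w') • vecMulVec w h' := by
  rw [vecMulVec_mul_vecMulVec]
  ext i j
  simp [vecMulVec_apply]
  ring

/-- the transvection as a unit -/
def tv (w h : n → K) (hw : h ⬝ᵥ w = 0) : (Matrix n n K)ˣ where
  val := 1 + vecMulVec w h
  inv := 1 + vecMulVec w h
  val_inv := by
    rw [mul_add, add_mul, add_mul, vmv_mul, hw, zero_smul, add_zero, one_mul, mul_one, one_mul,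
      add_assoc, madd, add_zero]
  inv_val := by
    rw [mul_add, add_mul, add_mul, vmv_mul, hw, zero_smul, add_zero, one_mul, mul_one, one_mul,
      add_assoc, madd, add_zero]

theorem tv_val (w h : n → K) (hw : h ⬝ᵥ w = 0) : (tv w h hw : Matrix n n K) = 1 + vecMulVec w h := rfl

theorem tv_inv (w h : n → K) (hw : h ⬝ᵥ w = 0) : (tv w h hw)⁻¹ = tv w h hw := by
  apply Units.ext
  rfl

theorem conj_dot (s : (Matrix n n K)ˣ) (w h : n → K) :
    (h ᵥ* (↑s⁻¹ : Matrix n n K)) ⬝ᵥ ((s : Matrix n n K) *ᵥ w) = h ⬝ᵥ w := by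
  rw [← dotProduct_mulVec, mulVec_mulVec, ← Units.val_mul, inv_mul_cancel, Units.val_one, one_mulVec]

theorem conj_tv (s : (Matrix n n K)ˣ) (w h : n → K) (hw : h ⬝ᵥ w = 0) :
    s * tv w h hw * s⁻¹ = tv ((s : Matrix n n K) *ᵥ w) (h ᵥ* (↑s⁻¹ : Matrix n n K))
      (by rw [conj_dot, hw]) := by
  apply Units.ext
  rw [Units.val_mul, Units.val_mul, tv_val, tv_val, mul_add, mul_one, add_mul, mul_vecMulVec,
    vecMulVec_mul, ← Units.val_mul, mul_inv_cancel, Units.val_one]

theorem conj_val (s : (Matrix n n K)ˣ) (w h : n → K) (hw : h ⬝ᵥ w = 0) :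
    ((s * tv w h hw * s⁻¹ : (Matrix n n K)ˣ) : Matrix n n K) =
      1 + vecMulVec ((s : Matrix n n K) *ᵥ w) (h ᵥ* (↑s⁻¹ : Matrix n n K)) := by
  rw [conj_tv, tv_val]

/-- The set of transvections in `M`. -/
def T (M : Subgroup (Matrix n n K)ˣ) (w h : n → K) : Prop := ∃ hw : h ⬝ᵥ w = 0, tv w h hw ∈ M

theorem spread_h (M : Subgroup (Matrix n n K)ˣ) [hM : M.Normal] {w h h' : n → K} (hT : T M w h)
    (hh : h ≠ 0) (hw' : h' ⬝ᵥ w = 0) : T M w h' := by
  by_cases he : h = h'
  · rw [← he]; exact hT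
  obtain ⟨hw, hm⟩ := hT
  obtain ⟨w', h1, h2⟩ := sep h h' hh he
  have h3 : h' ⬝ᵥ w' = 0 := by rw [dotProduct_comm]; exact h1
  have h4 : h ⬝ᵥ w' = 1 := by rw [dotProduct_comm]; exact h2
  refine ⟨hw', ?_⟩
  have key : tv w h' hw' = tv w h hw * (tv w' h' h3 * (tv w h hw)⁻¹ * (tv w' h' h3)⁻¹) := by
    rw [← mul_assoc, ← mul_assoc, tv_inv w' h' h3]
    apply Units.ext
    rw [Units.val_mul, conj_val, tv_inv, tv_val, tv_val, tv_val]
    have e1 : (1 + vecMulVec w h) *ᵥ w' = w' + w := by
      rw [add_mulVec, one_mulVec, vecMulVec_mulVec, h4]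
      simp
    have e2 : h' ᵥ* (1 + vecMulVec w h) = h' := by
      rw [vecMul_add, vecMul_one, vecMul_vecMulVec, hw']
      simp
    rw [e1, e2, mul_add, mul_one, add_mul, vmv_mul, h3, one_mul, zero_smul, add_zero, add_vecMulVec]
    have := madd (vecMulVec w' h')
    calc 1 + vecMulVec w h' = 1 + (vecMulVec w h' + (vecMulVec w' h' + vecMulVec w' h')) := by
          rw [this, add_zero]
      _ = _ := by abel
  rw [key]
  refine M.mul_mem hm ?_
  exact hM.conj_mem _ (M.inv_mem hm) _

theorem spread_w (M : Subgroup (Matrix n n K)ˣ) [hM : M.Normal] {w h w' : n → K} (hT : T M w h)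
    (hh : w ≠ 0) (hw' : h ⬝ᵥ w' = 0) : T M w' h := by
  by_cases he : w = w'
  · rw [← he]; exact hT
  obtain ⟨hw, hm⟩ := hT
  obtain ⟨h', h1, h2⟩ := sep w w' hh he
  refine ⟨hw', ?_⟩
  have key : tv w' h hw' = tv w h hw * (tv w' h' h1 * (tv w h hw)⁻¹ * (tv w' h' h1)⁻¹) := by
    rw [← mul_assoc, ← mul_assoc, tv_inv w' h' h1]
    apply Units.ext
    rw [Units.val_mul, conj_val, tv_inv, tv_val, tv_val, tv_val]
    have e1 : (1 + vecMulVec w h) *ᵥ w' = w' := by
      rw [add_mulVec, one_mulVec, vecMulVec_mulVec, hw']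
      simp
    have e2 : h' ᵥ* (1 + vecMulVec w h) = h' + h := by
      rw [vecMul_add, vecMul_one, vecMul_vecMulVec, h2]
      simp
    rw [e1, e2, mul_add, mul_one, add_mul, vmv_mul, add_dotProduct, h1, hw', one_mul, add_zero,
      zero_smul, add_zero, vecMulVec_add]
    have := madd (vecMulVec w' h')
    calc 1 + vecMulVec w' h = 1 + (vecMulVec w' h + (vecMulVec w' h' + vecMulVec w' h')) := by
          rw [this, add_zero]
      _ = _ := by abel
  rw [key]
  refine M.mul_mem hm ?_
  exact hM.conj_mem _ (M.inv_mem hm) _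

theorem all_T (hn : 3 ≤ Fintype.card n) (M : Subgroup (Matrix n n K)ˣ) [hM : M.Normal]
    {w h : n → K} (hT : T M w h) (hw : w ≠ 0) (hh : h ≠ 0) (x k : n → K) (hxk : k ⬝ᵥ x = 0) :
    T M x k := by
  obtain ⟨g, hg0, hg1, hg2⟩ := ann2 hn w x
  have h1 : T M w g := spread_h M hT hh hg1
  have h2 : T M x g := spread_w M h1 hw hg2
  exact spread_h M h2 hg0 hxk

theorem top_of_all (M : Subgroup (Matrix n n K)ˣ) (h : ∀ x k : n → K, k ⬝ᵥ x = 0 → T M x k) :
    M = ⊤ := by
  rw [eq_top_iff]
  intro g _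
  have key : ∀ A : Matrix n n K, A.det ≠ 0 → ∀ u : (Matrix n n K)ˣ, (u : Matrix n n K) = A → u ∈ M := by
    intro A hA
    refine diagonal_transvection_induction_of_det_ne_zero
      (fun A => ∀ u : (Matrix n n K)ˣ, (u : Matrix n n K) = A → u ∈ M) A hA ?_ ?_ ?_
    · intro D hD u hu
      have h1 : D = 1 := by
        ext i
        rw [det_diagonal] at hD
        have := Finset.prod_ne_zero_iff.1 hD i (Finset.mem_univ i)
        rcases k2 (D i) with h0 | h1
        · exact absurd h0 this
        · exact h1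
      have : u = 1 := by
        apply Units.ext
        rw [hu, h1, Units.val_one]
        exact diagonal_one
      rw [this]
      exact M.one_mem
    · intro t u hu
      obtain ⟨i, j, hij, c⟩ := t
      have h0 : (Pi.single j 1 : n → K) ⬝ᵥ (Pi.single i c) = 0 := by
        simp [hij.symm]
      obtain ⟨_, hm⟩ := h (Pi.single i c) (Pi.single j 1) h0
      convert hm
      apply Units.ext
      rw [hu, tv_val]
      simp only [TransvectionStruct.toMatrix, transvection]
      congr 1
      ext a b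
      simp only [vecMulVec_apply, single_apply, Pi.single_apply]
      by_cases ha : i = a <;> by_cases hb : j = b <;>
        simp [ha, hb, show (a = i) ↔ (i = a) from eq_comm, show (b = j) ↔ (j = b) from eq_comm]
    · intro A B hA hB h1 h2 u hu
      have hAu : IsUnit A := (Matrix.isUnit_iff_isUnit_det A).2 (isUnit_iff_ne_zero.2 hA)
      have hBu : IsUnit B := (Matrix.isUnit_iff_isUnit_det B).2 (isUnit_iff_ne_zero.2 hB)
      obtain ⟨a, ha⟩ := hAu
      obtain ⟨b, hb⟩ := hBu
      have : u = a * b := by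
        apply Units.ext
        rw [hu, Units.val_mul, ha, hb]
      rw [this]
      exact M.mul_mem (h1 a ha) (h2 b hb)
  refine key g ?_ g rfl
  exact (Matrix.isUnit_iff_isUnit_det _).1 g.isUnit |>.ne_zero

theorem GL_simple (hn : 3 ≤ Fintype.card n) (M : Subgroup (Matrix n n K)ˣ) [hM : M.Normal]
    (a : (Matrix n n K)ˣ) (ha : a ∈ M) (ha1 : a ≠ 1) : M = ⊤ := by
  -- a vector moved by `a`
  obtain ⟨v, hv⟩ : ∃ v : n → K, (a : Matrix n n K) *ᵥ v ≠ v := by
    by_contra hno
    push Not at hno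
    apply ha1
    apply Units.ext
    apply Matrix.ext_of_mulVec_single
    intro i
    rw [hno, Units.val_one, one_mulVec]
  have hv0 : v ≠ 0 := by rintro rfl; exact hv (mulVec_zero _)
  obtain ⟨f, hf0, hf, -⟩ := ann2 hn v v
  set t := tv v f hf with ht
  set f' : n → K := f ᵥ* (↑a⁻¹ : Matrix n n K) with hf'
  set c : (Matrix n n K)ˣ := a * t * a⁻¹ * t⁻¹ with hc
  have hcM : c ∈ M := by
    have : c = a * (t * a⁻¹ * t⁻¹) := by rw [hc]; group
    rw [this]
    exact M.mul_mem ha (hM.conj_mem _ (M.inv_mem ha) _)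
  have hc1 : c ≠ 1 := by
    intro h
    have h1 : a * t * a⁻¹ = t := by
      rw [hc] at h
      exact mul_inv_eq_one.1 h
    have h2 := congrArg (fun u : (Matrix n n K)ˣ => (u : Matrix n n K)) h1
    simp only [ht, conj_val, tv_val] at h2
    have h3 := add_left_cancel h2
    obtain ⟨j, hj⟩ : ∃ j, f j ≠ 0 := by
      by_contra hno
      push Not at hno
      exact hf0 (funext hno)
    have hj1 : f j = 1 := (k2 _).resolve_left hj
    have h4 : ∀ i, ((a : Matrix n n K) *ᵥ v) i * (f ᵥ* (↑a⁻¹ : Matrix n n K)) j = v i := by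
      intro i
      have := congrFun (congrFun h3 i) j
      rw [vecMulVec_apply, vecMulVec_apply, hj1, mul_one] at this
      exact this
    rcases k2 ((f ᵥ* (↑a⁻¹ : Matrix n n K)) j) with h5 | h5
    · apply hv0
      ext i
      rw [← h4 i, h5, mul_zero]
      rfl
    · apply hv
      ext i
      rw [← h4 i, h5, mul_one]
  -- a fixed vector of `c`
  obtain ⟨w, hw0, hw1, hw2⟩ := ann2 hn f f'
  have hcw : (c : Matrix n n K) *ᵥ w = w := by
    have h1 : c = (a * t * a⁻¹) * t := by rw [hc, ht, tv_inv]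
    rw [h1, ht, Units.val_mul, conj_val, tv_val, ← mulVec_mulVec, add_mulVec 1 (vecMulVec v f), one_mulVec,
      vecMulVec_mulVec, dotProduct_comm f w, hw1]
    simp only [MulOpposite.op_zero, zero_smul, add_zero]
    rw [add_mulVec, one_mulVec, vecMulVec_mulVec]
    have : f ᵥ* (↑a⁻¹ : Matrix n n K) ⬝ᵥ w = 0 := by rw [dotProduct_comm]; exact hw2
    rw [this]
    simp
  have hcw' : (↑c⁻¹ : Matrix n n K) *ᵥ w = w := by
    conv_lhs => rw [← hcw]
    rw [mulVec_mulVec, ← Units.val_mul, inv_mul_cancel, Units.val_one, one_mulVec]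
  have main : ∃ w h : n → K, T M w h ∧ w ≠ 0 ∧ h ≠ 0 := by
    by_cases hx : ∃ x : n → K, (c : Matrix n n K) *ᵥ x + x ≠ 0 ∧ (c : Matrix n n K) *ᵥ x + x ≠ w
    · obtain ⟨x, hx1, hx2⟩ := hx
      obtain ⟨h, hh1, hh2⟩ := sep _ w hx1 hx2
      set s := tv w h hh1 with hs
      have hmem : c * (s * c⁻¹ * s⁻¹) ∈ M := M.mul_mem hcM (hM.conj_mem _ (M.inv_mem hcM) _)
      set h' : n → K := h ᵥ* (↑c⁻¹ : Matrix n n K) + h with hh'
      have hw' : h' ⬝ᵥ w = 0 := by
        rw [hh', add_dotProduct, ← dotProduct_mulVec, hcw', hh1, add_zero]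
      have e : c * (s * c⁻¹ * s⁻¹) = tv w h' hw' := by
        rw [← mul_assoc, ← mul_assoc, hs, tv_inv]
        apply Units.ext
        rw [Units.val_mul, conj_val, tv_val, tv_val]
        rw [hcw, mul_add, mul_one, add_mul, one_mul, vmv_mul, ← dotProduct_mulVec, hcw', hh1,
          zero_smul, add_zero, hh', vecMulVec_add]
        abel
      refine ⟨w, h', ⟨hw', e ▸ hmem⟩, hw0, ?_⟩
      intro h0
      have : h' ⬝ᵥ ((c : Matrix n n K) *ᵥ x) = 1 := by
        rw [hh', add_dotProduct, conj_dot, ← dotProduct_add, add_comm]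
        exact hh2
      rw [h0, zero_dotProduct] at this
      exact absurd this (by decide)
    · push Not at hx
      -- `c - 1` has image in `{0, w}`
      obtain ⟨i0, hi0⟩ : ∃ i, w i ≠ 0 := by
        by_contra hno
        push Not at hno
        exact hw0 (funext hno)
      have hi1 : w i0 = 1 := (k2 _).resolve_left hi0
      set k : n → K := fun j => ((c : Matrix n n K) *ᵥ (Pi.single j 1) + Pi.single j 1 : n → K) i0 with hk
      have e : (c : Matrix n n K) = 1 + vecMulVec w k := by
        apply Matrix.ext_of_mulVec_single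
        intro j
        rw [add_mulVec, one_mulVec, vecMulVec_mulVec]
        have hkj : k ⬝ᵥ (Pi.single j 1) = k j := by simp
        rw [hkj]
        have e0 : (c : Matrix n n K) *ᵥ Pi.single j 1 =
            ((c : Matrix n n K) *ᵥ Pi.single j 1 + Pi.single j 1) + Pi.single j 1 := by
          rw [add_assoc, vadd, add_zero]
        by_cases h0 : (c : Matrix n n K) *ᵥ (Pi.single j 1) + Pi.single j 1 = 0
        · have : k j = 0 := by simp only [hk, h0]; rfl
          rw [this, e0, h0]
          simp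
        · have h1 := hx _ h0
          have : k j = 1 := by simp only [hk, h1, hi1]
          rw [this, e0, h1]
          simp [add_comm]
      have hkw : k ⬝ᵥ w = 0 := by
        have h1 := hcw
        rw [e, add_mulVec, one_mulVec, vecMulVec_mulVec] at h1
        have h2 := congrFun h1 i0
        simp only [Pi.add_apply, Pi.smul_apply, hi1] at h2
        rcases k2 (k ⬝ᵥ w) with h3 | h3
        · exact h3
        · rw [h3] at h2
          exact absurd h2 (by decide)
      have hk0 : k ≠ 0 := by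
        intro h0
        apply hc1
        apply Units.ext
        rw [e, h0, Units.val_one]
        simp
      refine ⟨w, k, ⟨hkw, ?_⟩, hw0, hk0⟩
      have : tv w k hkw = c := by
        apply Units.ext
        rw [tv_val, e]
      rw [this]
      exact hcM
  obtain ⟨w, h, hT, h1, h2⟩ := main
  exact top_of_all M (fun x k hxk => all_T hn M hT h1 h2 x k hxk)

end H430.LF
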