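import Pool.Agent.Helper430.LF1

/-! The group `Hom(A,B)^3 ⋊ (GL(A) × GL(B))` over `F_2` and its self-embedding. -/

namespace H430.LF

open Matrix

set_option linter.unusedSectionVars false

variable (I J : Type) [Fintype I] [DecidableEq I] [Fintype J] [DecidableEq J]

/-- triples of block matrices `(a 0; m_j b)`, `j = 0,1,2`. -/
@[ext]
structure GG where
  a : (Matrix I I K)ˣ
  b : (Matrix J J K)ˣ
  m : Fin 3 → Matrix J I K

variable {I J}

namespace GG

instance : Mul (GG I J) := ⟨fun g h => ⟨g.a * h.a, g.b * h.b,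
  fun i => g.m i * (h.a : Matrix I I K) + (g.b : Matrix J J K) * h.m i⟩⟩
instance : One (GG I J) := ⟨⟨1, 1, 0⟩⟩
instance : Inv (GG I J) := ⟨fun g => ⟨g.a⁻¹, g.b⁻¹,
  fun i => (↑g.b⁻¹ : Matrix J J K) * g.m i * (↑g.a⁻¹ : Matrix I I K)⟩⟩

@[simp] theorem mul_a (g h : GG I J) : (g * h).a = g.a * h.a := rfl
@[simp] theorem mul_b (g h : GG I J) : (g * h).b = g.b * h.b := rfl
@[simp] theorem mul_m (g h : GG I J) (i : Fin 3) : (g * h).m i =
  g.m i * (h.a : Matrix I I K) + (g.b : Matrix J J K) * h.m i := rfl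
@[simp] theorem one_a : (1 : GG I J).a = 1 := rfl
@[simp] theorem one_b : (1 : GG I J).b = 1 := rfl
@[simp] theorem one_m (i : Fin 3) : (1 : GG I J).m i = 0 := rfl
@[simp] theorem inv_a (g : GG I J) : (g⁻¹).a = g.a⁻¹ := rfl
@[simp] theorem inv_b (g : GG I J) : (g⁻¹).b = g.b⁻¹ := rfl
@[simp] theorem inv_m (g : GG I J) (i : Fin 3) : (g⁻¹).m i =
  (↑g.b⁻¹ : Matrix J J K) * g.m i * (↑g.a⁻¹ : Matrix I I K) := rfl

instance : Group (GG I J) := Group.ofLeftAxioms
  (by
    intro x y z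
    ext1
    · simp [mul_assoc]
    · simp [mul_assoc]
    · funext i
      simp only [mul_m, mul_a, mul_b, Units.val_mul, Matrix.add_mul, Matrix.mul_add]
      simp only [Matrix.mul_assoc]
      abel)
  (by
    intro x
    ext1
    · simp
    · simp
    · funext i
      simp)
  (by
    intro x
    ext1
    · simp
    · simp
    · funext i
      simp only [mul_m, inv_m, inv_b, one_m]
      rw [Matrix.mul_assoc, ← Units.val_mul, inv_mul_cancel, Units.val_one, Matrix.mul_one, madd])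

instance : Finite (GG I J) := by
  have : Function.Injective (fun g : GG I J => (g.a, g.b, g.m)) := by
    intro g h e
    simp only [Prod.mk.injEq] at e
    exact GG.ext e.1 e.2.1 e.2.2
  exact Finite.of_injective _ this

end GG

theorem fr_add {l m n : Type} (A₁ A₂ : Matrix l n K) (B₁ B₂ : Matrix m n K) :
    fromRows (A₁ + A₂) (B₁ + B₂) = fromRows A₁ B₁ + fromRows A₂ B₂ := by
  ext i j
  rcases i with i | i <;> simp

/-- the module `A' = A ⊕ B` -/
def Ahom : GG I J →* Matrix (I ⊕ J) (I ⊕ J) K where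
  toFun g := fromBlocks (g.a : Matrix I I K) 0 (g.m 2) (g.b : Matrix J J K)
  map_one' := by simp
  map_mul' g h := by
    rw [fromBlocks_multiply]
    simp

/-- the module `B' = A ⊕ B ⊕ B` -/
def Bhom : GG I J →* Matrix (I ⊕ (J ⊕ J)) (I ⊕ (J ⊕ J)) K where
  toFun g := fromBlocks (g.a : Matrix I I K) 0 (fromRows (g.m 0) (g.m 1))
    (fromBlocks (g.b : Matrix J J K) 0 0 (g.b : Matrix J J K))
  map_one' := by simp
  map_mul' g h := by
    rw [fromBlocks_multiply]
    simp [fromRows_mul, fromBlocks_mul_fromRows, fromBlocks_multiply, fr_add]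

/-- the three cocycles -/
def Mhom (g : GG I J) : Fin 3 → Matrix (I ⊕ (J ⊕ J)) (I ⊕ J) K :=
  ![fromBlocks 0 0 (fromRows 0 (g.m 0)) 0, fromBlocks 0 0 (fromRows (g.m 1) 0) 0,
    fromBlocks 0 0 (fromRows (g.m 0) 0) 0]

theorem Mhom_mul (g h : GG I J) (i : Fin 3) :
    Mhom (g * h) i = Mhom g i * Ahom h + Bhom g * Mhom h i := by
  fin_cases i <;>
  · simp only [Mhom, Ahom, Bhom, MonoidHom.coe_mk, OneHom.coe_mk, Fin.zero_eta, Fin.mk_one,
      Fin.reduceFinMk, Matrix.cons_val, Matrix.cons_val_zero, Matrix.cons_val_one]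
    rw [fromBlocks_multiply, fromBlocks_multiply]
    simp [fromRows_mul, fromBlocks_mul_fromRows, fromBlocks_add, ← fr_add]

/-- the self-embedding -/
noncomputable def phi : GG I J →* GG (I ⊕ J) (I ⊕ (J ⊕ J)) where
  toFun g := ⟨Ahom.toHomUnits g, Bhom.toHomUnits g, Mhom g⟩
  map_one' := by
    ext1
    · simp
    · simp
    · funext i
      fin_cases i <;> simp [Mhom]
  map_mul' g h := by
    ext1
    · simp
    · simp
    · funext i
      simp [Mhom_mul]

theorem phi_inj : Function.Injective (phi : GG I J →* GG (I ⊕ J) (I ⊕ (J ⊕ J))) := by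
  intro g h e
  have h1 : Ahom g = Ahom h := by
    have := congrArg (fun x : GG (I ⊕ J) (I ⊕ (J ⊕ J)) => (x.a : Matrix (I ⊕ J) (I ⊕ J) K)) e
    simpa [phi] using this
  have h2 : Bhom g = Bhom h := by
    have := congrArg (fun x : GG (I ⊕ J) (I ⊕ (J ⊕ J)) => (x.b : Matrix (I ⊕ (J ⊕ J)) (I ⊕ (J ⊕ J)) K)) e
    simpa [phi] using this
  simp only [Ahom, Bhom, MonoidHom.coe_mk, OneHom.coe_mk, fromBlocks_inj] at h1 h2
  ext1
  · exact Units.ext h1.1
  · exact Units.ext h1.2.2.2
  · funext i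
    have h3 := fromRows_inj h2.2.2.1
    fin_cases i
    · exact h3.1
    · exact h3.2
    · exact h1.2.2.1

end H430.LF
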