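import Pool.Agent.Helper430.LF2

/-! Rigidity of the restricted representations. -/

namespace H430.LF

open Matrix

set_option linter.unusedSectionVars false
set_option linter.unusedSimpArgs false

variable {I J : Type} [Fintype I] [DecidableEq I] [Fintype J] [DecidableEq J]

variable {H : Type} [Group H]

/-- The restricted pair of modules together with the three classes is rigid. -/
structure Good (ρ : H →* GG I J) : Prop where
  c1 : ∀ (c0 c1 c2 : K) (T : Matrix J I K), (∀ h, c0 • (ρ h).m 0 + c1 • (ρ h).m 1 + c2 • (ρ h).m 2 =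
    ((ρ h).b : Matrix J J K) * T + T * ((ρ h).a : Matrix I I K)) → c0 = 0 ∧ c1 = 0 ∧ c2 = 0 ∧ T = 0
  c2 : ∀ S : Matrix I J K, (∀ h, ((ρ h).a : Matrix I I K) * S = S * ((ρ h).b : Matrix J J K)) → S = 0
  c3 : ∀ P : Matrix I I K, (∀ h, ((ρ h).a : Matrix I I K) * P = P * ((ρ h).a : Matrix I I K)) →
    ∃ c : K, P = c • 1
  c4 : ∀ P : Matrix J J K, (∀ h, ((ρ h).b : Matrix J J K) * P = P * ((ρ h).b : Matrix J J K)) →
    ∃ c : K, P = c • 1

theorem phi_a (g : GG I J) : ((phi g).a : Matrix (I ⊕ J) (I ⊕ J) K) =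
    fromBlocks (g.a : Matrix I I K) 0 (g.m 2) (g.b : Matrix J J K) := rfl

theorem phi_b (g : GG I J) : ((phi g).b : Matrix (I ⊕ (J ⊕ J)) (I ⊕ (J ⊕ J)) K) =
    fromBlocks (g.a : Matrix I I K) 0 (fromRows (g.m 0) (g.m 1))
    (fromBlocks (g.b : Matrix J J K) 0 0 (g.b : Matrix J J K)) := rfl

theorem phi_m (g : GG I J) : (phi g).m = Mhom g := rfl

theorem eq_add {l m : Type} {x y z : Matrix l m K} (h : x + y = z) : x = z + y := by
  rw [← h, add_assoc, madd, add_zero]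

theorem eq_add_iff {l m : Type} {x y z : Matrix l m K} : x + y = z ↔ x = z + y :=
  ⟨eq_add, fun h => by rw [h, add_assoc, madd, add_zero]⟩

variable {ρ : H →* GG I J}

theorem Good.c1' (hρ : Good ρ) (T : Matrix J I K)
    (h : ∀ h, ((ρ h).b : Matrix J J K) * T = T * ((ρ h).a : Matrix I I K)) : T = 0 := by
  refine (hρ.c1 0 0 0 T ?_).2.2.2
  intro x
  rw [h x, madd]
  simp

theorem split22 (P : Matrix (I ⊕ J) (I ⊕ J) K) : ∃ P1 P2 P3 P4, P = fromBlocks P1 P2 P3 P4 :=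
  ⟨_, _, _, _, (fromBlocks_toBlocks P).symm⟩

theorem split33 (P : Matrix (I ⊕ (J ⊕ J)) (I ⊕ (J ⊕ J)) K) : ∃ P11 P12 P13 P21 P22 P23 P31 P32 P33,
    P = fromBlocks P11 (fromCols P12 P13) (fromRows P21 P31) (fromBlocks P22 P23 P32 P33) := by
  refine ⟨P.toBlocks₁₁, P.toBlocks₁₂.toCols₁, P.toBlocks₁₂.toCols₂, P.toBlocks₂₁.toRows₁,
    P.toBlocks₂₂.toBlocks₁₁, P.toBlocks₂₂.toBlocks₁₂, P.toBlocks₂₁.toRows₂,
    P.toBlocks₂₂.toBlocks₂₁, P.toBlocks₂₂.toBlocks₂₂, ?_⟩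
  rw [fromCols_toCols, fromRows_toRows, fromBlocks_toBlocks, fromBlocks_toBlocks]

theorem split23 (P : Matrix (I ⊕ J) (I ⊕ (J ⊕ J)) K) : ∃ P11 P12 P13 P21 P22 P23,
    P = fromBlocks P11 (fromCols P12 P13) P21 (fromCols P22 P23) := by
  refine ⟨P.toBlocks₁₁, P.toBlocks₁₂.toCols₁, P.toBlocks₁₂.toCols₂, P.toBlocks₂₁,
    P.toBlocks₂₂.toCols₁, P.toBlocks₂₂.toCols₂, ?_⟩
  rw [fromCols_toCols, fromCols_toCols, fromBlocks_toBlocks]

theorem split32 (P : Matrix (I ⊕ (J ⊕ J)) (I ⊕ J) K) : ∃ P11 P12 P21 P22 P31 P32,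
    P = fromBlocks P11 P12 (fromRows P21 P31) (fromRows P22 P32) := by
  refine ⟨P.toBlocks₁₁, P.toBlocks₁₂, P.toBlocks₂₁.toRows₁, P.toBlocks₂₂.toRows₁,
    P.toBlocks₂₁.toRows₂, P.toBlocks₂₂.toRows₂, ?_⟩
  rw [fromRows_toRows, fromRows_toRows, fromBlocks_toBlocks]

theorem fc_add {l m n : Type} (A₁ A₂ : Matrix l m K) (B₁ B₂ : Matrix l n K) :
    fromCols (A₁ + A₂) (B₁ + B₂) = fromCols A₁ B₁ + fromCols A₂ B₂ := by
  ext i j
  rcases j with i | i <;> simp

theorem smul_mul_one {l m : Type} [Fintype m] [DecidableEq m] (c : K) (X : Matrix l m K) :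
    X * (c • (1 : Matrix m m K)) = c • X := by simp

theorem Good.step3 (hρ : Good ρ) (P : Matrix (I ⊕ J) (I ⊕ J) K)
    (hP : ∀ h, ((phi (ρ h)).a : Matrix (I ⊕ J) (I ⊕ J) K) * P =
      P * ((phi (ρ h)).a : Matrix (I ⊕ J) (I ⊕ J) K)) : ∃ c : K, P = c • 1 := by
  obtain ⟨P11, P12, P21, P22, rfl⟩ := split22 P
  simp only [phi_a, fromBlocks_multiply, fromBlocks_inj, Matrix.zero_mul, Matrix.mul_zero, add_zero,
    zero_add] at hP
  have h12 : P12 = 0 := hρ.c2 P12 (fun h => (hP h).2.1)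
  subst h12
  simp only [Matrix.zero_mul, Matrix.mul_zero, add_zero, zero_add] at hP
  obtain ⟨c, rfl⟩ := hρ.c3 P11 (fun h => (hP h).1)
  obtain ⟨d, rfl⟩ := hρ.c4 P22 (fun h => (hP h).2.2.2)
  have h1 := hρ.c1 0 0 (c + d) P21 (by
    intro h
    have := (hP h).2.2.1
    simp only [Matrix.mul_smul, Matrix.smul_mul, Matrix.mul_one, Matrix.one_mul] at this
    simp only [zero_smul, zero_add, add_smul]
    have e := eq_add this
    rw [e]
    have hh := madd (d • (ρ h).m 2)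
    calc _ = ((ρ h).b : Matrix J J K) * P21 + P21 * ((ρ h).a : Matrix I I K) +
        (d • (ρ h).m 2 + d • (ρ h).m 2) := by abel
      _ = _ := by rw [hh, add_zero])
  have hcd : c = d := by
    have := h1.2.2.1
    calc c = c + d + d := by rw [add_assoc, kadd, add_zero]
      _ = d := by rw [this, zero_add]
  refine ⟨c, ?_⟩
  rw [← hcd, h1.2.2.2, ← fromBlocks_one, fromBlocks_smul]
  simp

theorem Good.step2 (hρ : Good ρ) (S : Matrix (I ⊕ J) (I ⊕ (J ⊕ J)) K)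
    (hS : ∀ h, ((phi (ρ h)).a : Matrix (I ⊕ J) (I ⊕ J) K) * S =
      S * ((phi (ρ h)).b : Matrix (I ⊕ (J ⊕ J)) (I ⊕ (J ⊕ J)) K)) : S = 0 := by
  obtain ⟨P11, P12, P13, P21, P22, P23, rfl⟩ := split23 S
  simp only [phi_a, phi_b, fromBlocks_multiply, fromBlocks_inj, Matrix.zero_mul, Matrix.mul_zero,
    add_zero, zero_add, mul_fromCols, fromCols_mul_fromRows, fromCols_mul_fromBlocks,
    fromCols_ext_iff, ← fc_add] at hS
  have h12 : P12 = 0 := hρ.c2 P12 (fun h => (hS h).2.1.1)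
  have h13 : P13 = 0 := hρ.c2 P13 (fun h => (hS h).2.1.2)
  subst h12
  subst h13
  simp only [Matrix.zero_mul, Matrix.mul_zero, add_zero, zero_add] at hS
  obtain ⟨c, rfl⟩ := hρ.c3 P11 (fun h => (hS h).1)
  obtain ⟨d, rfl⟩ := hρ.c4 P22 (fun h => (hS h).2.2.2.1)
  obtain ⟨e, rfl⟩ := hρ.c4 P23 (fun h => (hS h).2.2.2.2)
  have h1 := hρ.c1 d e c P21 (by
    intro h
    have := (hS h).2.2.1
    simp only [Matrix.mul_smul, Matrix.smul_mul, Matrix.mul_one, Matrix.one_mul] at this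
    have e1 := eq_add this
    have h2 := madd (((ρ h).b : Matrix J J K) * P21)
    have h3 := madd (P21 * ((ρ h).a : Matrix I I K))
    rw [e1]
    have h4 := madd (d • (ρ h).m 0)
    have h5 := madd (e • (ρ h).m 1)
    calc _ = ((ρ h).b : Matrix J J K) * P21 + P21 * ((ρ h).a : Matrix I I K) +
        (d • (ρ h).m 0 + d • (ρ h).m 0) + (e • (ρ h).m 1 + e • (ρ h).m 1) := by abel
      _ = _ := by rw [h4, h5, add_zero, add_zero])
  obtain ⟨rfl, rfl, rfl, rfl⟩ := h1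
  simp

theorem Good.step4 (hρ : Good ρ) (P : Matrix (I ⊕ (J ⊕ J)) (I ⊕ (J ⊕ J)) K)
    (hP : ∀ h, ((phi (ρ h)).b : Matrix (I ⊕ (J ⊕ J)) (I ⊕ (J ⊕ J)) K) * P =
      P * ((phi (ρ h)).b : Matrix (I ⊕ (J ⊕ J)) (I ⊕ (J ⊕ J)) K)) : ∃ c : K, P = c • 1 := by
  obtain ⟨P11, P12, P13, P21, P22, P23, P31, P32, P33, rfl⟩ := split33 P
  simp only [phi_b, fromBlocks_multiply, fromBlocks_inj, Matrix.zero_mul, Matrix.mul_zero,
    add_zero, zero_add, mul_fromCols, fromCols_mul_fromRows, fromCols_mul_fromBlocks,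
    fromRows_mul, fromBlocks_mul_fromRows, fromRows_mul_fromCols, fromBlocks_add, fromRows_ext_iff,
    fromCols_ext_iff, ← fc_add, ← fr_add] at hP
  have h12 : P12 = 0 := hρ.c2 P12 (fun h => (hP h).2.1.1)
  have h13 : P13 = 0 := hρ.c2 P13 (fun h => (hP h).2.1.2)
  subst h12
  subst h13
  simp only [Matrix.zero_mul, Matrix.mul_zero, add_zero, zero_add, fromRows_zero, fromCols_zero,
    fromBlocks_inj] at hP
  obtain ⟨c, rfl⟩ := hρ.c3 P11 (fun h => (hP h).1)
  obtain ⟨d22, rfl⟩ := hρ.c4 P22 (fun h => (hP h).2.2.2.1)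
  obtain ⟨d23, rfl⟩ := hρ.c4 P23 (fun h => (hP h).2.2.2.2.1)
  obtain ⟨d32, rfl⟩ := hρ.c4 P32 (fun h => (hP h).2.2.2.2.2.1)
  obtain ⟨d33, rfl⟩ := hρ.c4 P33 (fun h => (hP h).2.2.2.2.2.2)
  have h1 := hρ.c1 (c + d22) d23 0 P21 (by
    intro h
    have := (hP h).2.2.1.1
    simp only [Matrix.mul_smul, Matrix.smul_mul, Matrix.mul_one, Matrix.one_mul] at this
    have e1 := eq_add this
    have h2 := madd (d22 • (ρ h).m 0)
    have h3 := madd (d23 • (ρ h).m 1)
    rw [add_smul, zero_smul, add_zero, e1]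
    calc _ = ((ρ h).b : Matrix J J K) * P21 + P21 * ((ρ h).a : Matrix I I K) +
        (d22 • (ρ h).m 0 + d22 • (ρ h).m 0) + (d23 • (ρ h).m 1 + d23 • (ρ h).m 1) := by abel
      _ = _ := by rw [h2, h3, add_zero, add_zero])
  have h2 := hρ.c1 d32 (c + d33) 0 P31 (by
    intro h
    have := (hP h).2.2.1.2
    simp only [Matrix.mul_smul, Matrix.smul_mul, Matrix.mul_one, Matrix.one_mul] at this
    have e1 := eq_add this
    have h2 := madd (d32 • (ρ h).m 0)
    have h3 := madd (d33 • (ρ h).m 1)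
    rw [add_smul, zero_smul, add_zero, e1]
    calc _ = ((ρ h).b : Matrix J J K) * P31 + P31 * ((ρ h).a : Matrix I I K) +
        (d32 • (ρ h).m 0 + d32 • (ρ h).m 0) + (d33 • (ρ h).m 1 + d33 • (ρ h).m 1) := by abel
      _ = _ := by rw [h2, h3, add_zero, add_zero])
  obtain ⟨e1, e2, -, e3⟩ := h1
  obtain ⟨f1, f2, -, f3⟩ := h2
  have g1 : c = d22 := by
    calc c = c + d22 + d22 := by rw [add_assoc, kadd, add_zero]
      _ = d22 := by rw [e1, zero_add]
  have g2 : c = d33 := by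
    calc c = c + d33 + d33 := by rw [add_assoc, kadd, add_zero]
      _ = d33 := by rw [f2, zero_add]
  refine ⟨c, ?_⟩
  rw [← g1, ← g2, e2, f1, e3, f3, ← fromBlocks_one, fromBlocks_smul, ← fromBlocks_one, fromBlocks_smul]
  simp

theorem zero_fr {l m n : Type} (A : Matrix l n K) (B : Matrix m n K) :
    0 = fromRows A B ↔ 0 = A ∧ 0 = B := by
  rw [← fromRows_zero, fromRows_ext_iff]

theorem fr_smul {l m n : Type} (c : K) (A : Matrix l n K) (B : Matrix m n K) :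
    c • fromRows A B = fromRows (c • A) (c • B) := by
  ext i j
  rcases i with i | i <;> simp

theorem eq_of_zero_eq_add {l m : Type} {x y : Matrix l m K} (h : 0 = x + y) : x = y := by
  have := eq_add h.symm
  rw [this, zero_add]

theorem Good.step1 (hρ : Good ρ) (c0 c1 c2 : K) (T : Matrix (I ⊕ (J ⊕ J)) (I ⊕ J) K)
    (hT : ∀ h, c0 • (phi (ρ h)).m 0 + c1 • (phi (ρ h)).m 1 + c2 • (phi (ρ h)).m 2 =
      ((phi (ρ h)).b : Matrix (I ⊕ (J ⊕ J)) (I ⊕ (J ⊕ J)) K) * T +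
        T * ((phi (ρ h)).a : Matrix (I ⊕ J) (I ⊕ J) K)) : c0 = 0 ∧ c1 = 0 ∧ c2 = 0 ∧ T = 0 := by
  obtain ⟨P11, P12, P21, P22, P31, P32, rfl⟩ := split32 T
  simp only [phi_m, Mhom, Matrix.cons_val] at hT
  simp only [phi_a, phi_b, fromBlocks_multiply, fromBlocks_inj, Matrix.zero_mul, Matrix.mul_zero,
    add_zero, zero_add, mul_fromCols, fromCols_mul_fromRows, fromCols_mul_fromBlocks,
    fromRows_mul, fromBlocks_mul_fromRows, fromRows_mul_fromCols, fromBlocks_add, fromRows_ext_iff,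
    fromCols_ext_iff, ← fc_add, ← fr_add, fromBlocks_smul, smul_zero, zero_fr, fr_smul] at hT
  have h12 : P12 = 0 := hρ.c2 P12 (fun h => eq_of_zero_eq_add (hT h).2.1)
  subst h12
  simp only [Matrix.zero_mul, Matrix.mul_zero, add_zero, zero_add] at hT
  obtain ⟨c, rfl⟩ := hρ.c3 P11 (fun h => eq_of_zero_eq_add (hT h).1)
  obtain ⟨d22, rfl⟩ := hρ.c4 P22 (fun h => eq_of_zero_eq_add (hT h).2.2.2.1)
  obtain ⟨d32, rfl⟩ := hρ.c4 P32 (fun h => eq_of_zero_eq_add (hT h).2.2.2.2)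
  have h1 := hρ.c1 (c + c2) c1 d22 P21 (by
    intro h
    have := (hT h).2.2.1.1
    simp only [Matrix.mul_smul, Matrix.smul_mul, Matrix.mul_one, Matrix.one_mul] at this
    have h2 := madd (c • (ρ h).m 0)
    have h3 := madd (d22 • (ρ h).m 2)
    rw [add_smul]
    calc _ = c • (ρ h).m 0 + d22 • (ρ h).m 2 + (c1 • (ρ h).m 1 + c2 • (ρ h).m 0) := by abel
      _ = ((ρ h).b : Matrix J J K) * P21 + P21 * ((ρ h).a : Matrix I I K) +
        (c • (ρ h).m 0 + c • (ρ h).m 0) + (d22 • (ρ h).m 2 + d22 • (ρ h).m 2) := by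
          rw [this]; abel
      _ = _ := by rw [h2, h3, add_zero, add_zero])
  have h2 := hρ.c1 c0 c d32 P31 (by
    intro h
    have := (hT h).2.2.1.2
    simp only [Matrix.mul_smul, Matrix.smul_mul, Matrix.mul_one, Matrix.one_mul] at this
    have h2 := madd (c • (ρ h).m 1)
    have h3 := madd (d32 • (ρ h).m 2)
    rw [this]
    calc _ = ((ρ h).b : Matrix J J K) * P31 + P31 * ((ρ h).a : Matrix I I K) +
        (c • (ρ h).m 1 + c • (ρ h).m 1) + (d32 • (ρ h).m 2 + d32 • (ρ h).m 2) := by abel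
      _ = _ := by rw [h2, h3, add_zero, add_zero])
  obtain ⟨e1, e2, e3, e4⟩ := h1
  obtain ⟨f1, f2, f3, f4⟩ := h2
  subst f2 e2 f1 e3 f3 e4 f4
  rw [zero_add] at e1
  subst e1
  simp

theorem Good.next (hρ : Good ρ) : Good (phi.comp ρ) :=
  ⟨hρ.step1, hρ.step2, hρ.step3, hρ.step4⟩

/-- The centralizer of the image of a rigid group is trivial. -/
theorem Good.centralizer (hρ : Good ρ) (g : GG I J) (hg : ∀ h, ρ h * g = g * ρ h) : g = 1 := by
  obtain ⟨c, hc⟩ := hρ.c3 (g.a : Matrix I I K) (fun h => by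
    have := congrArg (fun x : GG I J => (x.a : Matrix I I K)) (hg h)
    simpa using this)
  obtain ⟨d, hd⟩ := hρ.c4 (g.b : Matrix J J K) (fun h => by
    have := congrArg (fun x : GG I J => (x.b : Matrix J J K)) (hg h)
    simpa using this)
  have ha : g.a = 1 := by
    rcases k2 c with rfl | rfl
    · rw [zero_smul] at hc
      have h1 : (1 : Matrix I I K) = 0 := by
        rw [← Units.val_one, ← mul_inv_cancel g.a, Units.val_mul, hc, Matrix.zero_mul]
      apply Units.ext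
      rw [hc, Units.val_one, h1]
    · apply Units.ext
      rw [hc, one_smul, Units.val_one]
  have hb : g.b = 1 := by
    rcases k2 d with rfl | rfl
    · rw [zero_smul] at hd
      have h1 : (1 : Matrix J J K) = 0 := by
        rw [← Units.val_one, ← mul_inv_cancel g.b, Units.val_mul, hd, Matrix.zero_mul]
      apply Units.ext
      rw [hd, Units.val_one, h1]
    · apply Units.ext
      rw [hd, one_smul, Units.val_one]
  ext1
  · exact ha
  · exact hb
  · funext i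
    apply hρ.c1'
    intro h
    have := congrFun (congrArg GG.m (hg h)) i
    simp only [GG.mul_m, ha, hb, Units.val_one, Matrix.mul_one, Matrix.one_mul] at this
    exact (add_left_cancel (this.trans (add_comm _ _)))

end H430.LF
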