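import Pool.Agent.Helper430.LF3

/-! The tautological representation is rigid, and normal closures in `GG I J`. -/

namespace H430.LF

open Matrix

set_option linter.unusedSectionVars false
set_option linter.unusedSimpArgs false

variable {I J : Type} [Fintype I] [DecidableEq I] [Fintype J] [DecidableEq J]

theorem exists_ne_zero_coord (v : I → K) (hv : v ≠ 0) : ∃ i, v i = 1 := by
  by_contra hno
  push Not at hno
  apply hv
  funext i
  exact (k2 (v i)).resolve_right (hno i)

theorem vmv_ne_zero (w : J → K) (h : I → K) (hw : w ≠ 0) (hh : h ≠ 0) : vecMulVec w h ≠ 0 := by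
  obtain ⟨i, hi⟩ := exists_ne_zero_coord w hw
  obtain ⟨j, hj⟩ := exists_ne_zero_coord h hh
  intro h0
  have := congrFun (congrFun h0 i) j
  rw [vecMulVec_apply, hi, hj, mul_one] at this
  exact one_ne_zero this

def tA : (Matrix I I K)ˣ →* GG I J where
  toFun a := ⟨a, 1, 0⟩
  map_one' := rfl
  map_mul' x y := by
    ext1
    · rfl
    · simp
    · funext i; simp

def tB : (Matrix J J K)ˣ →* GG I J where
  toFun a := ⟨1, a, 0⟩
  map_one' := rfl
  map_mul' x y := by
    ext1
    · simp
    · rfl
    · funext i; simp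

def nn (m : Fin 3 → Matrix J I K) : GG I J := ⟨1, 1, m⟩

theorem nn_add (m m' : Fin 3 → Matrix J I K) : nn (m + m') = nn m * nn m' := by
  ext1
  · simp [nn]
  · simp [nn]
  · funext i; simp [nn]

theorem nn_zero : (nn 0 : GG I J) = 1 := rfl

theorem nn_inv (m : Fin 3 → Matrix J I K) : (nn m)⁻¹ = nn m := by
  rw [inv_eq_iff_mul_eq_one, ← nn_add]
  have : m + m = 0 := by funext i; exact madd _
  rw [this, nn_zero]

theorem conj_nn (g : GG I J) (m : Fin 3 → Matrix J I K) :
    g * nn m * g⁻¹ = nn (fun i => (g.b : Matrix J J K) * m i * (↑g.a⁻¹ : Matrix I I K)) := by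
  rw [mul_inv_eq_iff_eq_mul]
  ext1
  · simp [nn]
  · simp [nn]
  · funext i
    simp only [nn, GG.mul_m, Units.val_one, Matrix.mul_one, Matrix.one_mul]
    rw [Matrix.mul_assoc, ← Units.val_mul, inv_mul_cancel, Units.val_one, Matrix.mul_one, add_comm]

theorem decomp (g : GG I J) : g = nn (fun i => g.m i * (↑g.a⁻¹ : Matrix I I K)) * (tA g.a * tB g.b) := by
  ext1
  · simp [nn, tA, tB]
  · simp [nn, tA, tB]
  · funext i
    simp only [nn, tA, tB, GG.mul_m, MonoidHom.coe_mk, OneHom.coe_mk, GG.mul_a, mul_one, Pi.zero_apply,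
      Matrix.zero_mul, Matrix.mul_zero, add_zero]
    rw [Matrix.mul_assoc, ← Units.val_mul, inv_mul_cancel, Units.val_one, Matrix.mul_one]

/-- scalar units over `F_2` are trivial -/
theorem eq_one_of_commute (a : (Matrix I I K)ˣ) (h : ∀ t : (Matrix I I K)ˣ, a * t = t * a) : a = 1 := by
  have h1 : (a : Matrix I I K) ∈ Set.range (Matrix.scalar I) := by
    apply mem_range_scalar_of_commute_transvectionStruct
    intro t
    have ht : IsUnit t.toMatrix := by
      rw [Matrix.isUnit_iff_isUnit_det, TransvectionStruct.det]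
      exact isUnit_one
    obtain ⟨u, hu⟩ := ht
    rw [← hu]
    change (u : Matrix I I K) * a = a * u
    rw [← Units.val_mul, ← Units.val_mul, h u]
  obtain ⟨c, hc⟩ := h1
  apply Units.ext
  rcases k2 c with rfl | rfl
  · rw [map_zero] at hc
    have h1 : (1 : Matrix I I K) = 0 := by
      rw [← Units.val_one, ← mul_inv_cancel a, Units.val_mul, ← hc, Matrix.zero_mul]
    rw [← hc, Units.val_one, h1]
  · rw [← hc, map_one, Units.val_one]

theorem good_id (hI : 3 ≤ Fintype.card I) (hJ : 3 ≤ Fintype.card J) :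
    Good (MonoidHom.id (GG I J)) := by
  have hIn : Nonempty I := Fintype.card_pos_iff.1 (by omega)
  have hJn : Nonempty J := Fintype.card_pos_iff.1 (by omega)
  obtain ⟨i0⟩ := hIn
  obtain ⟨j0⟩ := hJn
  have scal : ∀ (n : Type) [Fintype n] [DecidableEq n] (P : Matrix n n K),
      (∀ a : (Matrix n n K)ˣ, (a : Matrix n n K) * P = P * a) → ∃ c : K, P = c • 1 := by
    intro n _ _ P hP
    have h1 : P ∈ Set.range (Matrix.scalar n) := by
      apply mem_range_scalar_of_commute_transvectionStruct
      intro t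
      have ht : IsUnit t.toMatrix := by
        rw [Matrix.isUnit_iff_isUnit_det, TransvectionStruct.det]
        exact isUnit_one
      obtain ⟨u, hu⟩ := ht
      rw [← hu]
      exact hP u
    obtain ⟨c, hc⟩ := h1
    refine ⟨c, ?_⟩
    rw [← hc, smul_one_eq_diagonal]
    rfl
  refine ⟨?_, ?_, ?_, ?_⟩
  · intro c0 c1 c2 T hT
    have hc : ∀ m : Fin 3 → Matrix J I K, c0 • m 0 + c1 • m 1 + c2 • m 2 = 0 := by
      intro m
      have := hT (nn m)
      simp only [MonoidHom.id_apply, nn, Units.val_one, Matrix.mul_one, Matrix.one_mul, madd] at this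
      exact this
    set E : Matrix J I K := Matrix.single j0 i0 1 with hE
    have hE1 : ∀ c : K, c • E = 0 → c = 0 := by
      intro c h
      have := congrFun (congrFun h j0) i0
      simpa [hE] using this
    have h0 : c0 = 0 := hE1 _ (by simpa using hc ![E, 0, 0])
    have h1 : c1 = 0 := hE1 _ (by simpa using hc ![0, E, 0])
    have h2 : c2 = 0 := hE1 _ (by simpa using hc ![0, 0, E])
    subst h0 h1 h2
    refine ⟨rfl, rfl, rfl, ?_⟩
    have hT' : ∀ a : (Matrix I I K)ˣ, T * (a : Matrix I I K) = T := by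
      intro a
      have := hT (tA a)
      simp only [MonoidHom.id_apply, tA, MonoidHom.coe_mk, OneHom.coe_mk, Pi.zero_apply, smul_zero,
        add_zero, Units.val_one, Matrix.one_mul, zero_smul] at this
      have := eq_add this.symm
      rw [zero_add] at this
      exact this.symm
    apply Matrix.ext_of_mulVec_single
    intro i
    obtain ⟨h, hh0, hh, -⟩ := ann2 hI (Pi.single i 1) (Pi.single i 1)
    have h1 := hT' (tv _ h hh)
    rw [tv_val, Matrix.mul_add, Matrix.mul_one, mul_vecMulVec] at h1
    have h2 : vecMulVec (T *ᵥ Pi.single i 1) h = 0 := by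
      have := add_left_cancel (h1.trans (add_zero T).symm)
      exact this
    by_contra hne
    rw [zero_mulVec] at hne
    exact vmv_ne_zero _ _ hne hh0 h2
  · intro S hS
    have hS' : ∀ a : (Matrix I I K)ˣ, (a : Matrix I I K) * S = S := by
      intro a
      have := hS (tA a)
      simpa [tA] using this
    by_contra hne
    obtain ⟨i, hi⟩ : ∃ i, S i ≠ 0 := by
      by_contra hno
      push Not at hno
      exact hne (funext hno)
    obtain ⟨w, hw0, hw, -⟩ := ann2 hI (Pi.single i 1) (Pi.single i 1)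
    have hw' : (Pi.single i 1 : I → K) ⬝ᵥ w = 0 := by rw [dotProduct_comm]; exact hw
    have h1 := hS' (tv w _ hw')
    rw [tv_val, Matrix.add_mul, Matrix.one_mul, vecMulVec_mul] at h1
    have h2 : vecMulVec w ((Pi.single i 1 : I → K) ᵥ* S) = 0 :=
      add_left_cancel (h1.trans (add_zero S).symm)
    rw [single_one_vecMul] at h2
    exact vmv_ne_zero _ _ hw0 hi h2
  · intro P hP
    exact scal I P (fun a => by simpa [tA] using hP (tA a))
  · intro P hP
    exact scal J P (fun a => by simpa [tB] using hP (tB a))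

/-- additive subgroups of `Hom(A,B)` invariant under both groups -/
theorem inv_sub_top (hJ : 3 ≤ Fintype.card J)
    (N : AddSubgroup (Matrix J I K)) (hl : ∀ X ∈ N, ∀ b : (Matrix J J K)ˣ, (b : Matrix J J K) * X ∈ N)
    (hr : ∀ X ∈ N, ∀ a : (Matrix I I K)ˣ, X * (a : Matrix I I K) ∈ N) (Y : Matrix J I K) (hY : Y ∈ N)
    (hY0 : Y ≠ 0) : N = ⊤ := by
  obtain ⟨j, hj⟩ : ∃ j, Y j ≠ 0 := by
    by_contra hno
    push Not at hno
    exact hY0 (funext hno)
  obtain ⟨w, hw0, hw, -⟩ := ann2 hJ (Pi.single j 1) (Pi.single j 1)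
  have hw' : (Pi.single j 1 : J → K) ⬝ᵥ w = 0 := by rw [dotProduct_comm]; exact hw
  have h1 : vecMulVec w (Y j) ∈ N := by
    have h1 := hl Y hY (tv w _ hw')
    rw [tv_val, Matrix.add_mul, Matrix.one_mul, vecMulVec_mul, single_one_vecMul] at h1
    exact (AddSubgroup.add_mem_cancel_left N hY).1 h1
  have h2 : ∀ w' : J → K, vecMulVec w' (Y j) ∈ N := by
    intro w'
    by_cases he : w = w'
    · rw [← he]; exact h1
    obtain ⟨f, hf1, hf2⟩ := sep w w' hw0 he
    have h3 := hl _ h1 (tv w' f hf1)
    rw [tv_val, Matrix.add_mul, Matrix.one_mul, vecMulVec_mul, vecMul_vecMulVec, hf2, one_smul] at h3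
    exact (AddSubgroup.add_mem_cancel_left N h1).1 h3
  have h3 : ∀ (w' : J → K) (g : I → K), vecMulVec w' g ∈ N := by
    intro w' g
    by_cases he : Y j = g
    · rw [← he]; exact h2 w'
    obtain ⟨y, hy1, hy2⟩ := sep (Y j) g hj he
    have h3 := hr _ (h2 w') (tv y g (by rw [dotProduct_comm]; exact hy1))
    rw [tv_val, Matrix.mul_add, Matrix.mul_one, mul_vecMulVec, vecMulVec_mulVec, dotProduct_comm,
      hy2] at h3
    have h4 := (AddSubgroup.add_mem_cancel_left N (h2 w')).1 h3
    simpa using h4
  rw [eq_top_iff]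
  intro X _
  rw [matrix_eq_sum_single X]
  refine AddSubgroup.sum_mem _ (fun i _ => AddSubgroup.sum_mem _ (fun k _ => ?_))
  have : Matrix.single i k (X i k) = vecMulVec (Pi.single i (X i k)) (Pi.single k 1) := by
    ext a b
    simp only [vecMulVec_apply, single_apply, Pi.single_apply]
    by_cases ha : i = a <;> by_cases hb : k = b <;>
      simp [ha, hb, show (a = i) ↔ (i = a) from eq_comm, show (b = k) ↔ (k = b) from eq_comm]
  rw [this]
  exact h3 _ _

/-- a normal subgroup moving both modules is everything -/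
theorem GG_top (hI : 3 ≤ Fintype.card I) (hJ : 3 ≤ Fintype.card J) (M : Subgroup (GG I J))
    [hM : M.Normal] (g g' : GG I J) (hg : g ∈ M) (hg' : g' ∈ M) (ha : g.a ≠ 1) (hb : g'.b ≠ 1) :
    M = ⊤ := by
  have hN : ∀ m : Fin 3 → Matrix J I K, nn m ∈ M := by
    have hconj : ∀ m, nn m ∈ M → ∀ x : GG I J,
        nn (fun i => (x.b : Matrix J J K) * m i * (↑x.a⁻¹ : Matrix I I K)) ∈ M := by
      intro m hm x
      rw [← conj_nn]
      exact hM.conj_mem _ hm x
    have hi : ∀ (i : Fin 3) (X : Matrix J I K), nn (Pi.single i X) ∈ M := by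
      intro i
      let N : AddSubgroup (Matrix J I K) :=
        { carrier := {X | nn (Pi.single i X) ∈ M}
          zero_mem' := by
            change nn (Pi.single i 0) ∈ M
            rw [Pi.single_zero]
            exact M.one_mem
          add_mem' := by
            intro X Y hX hY
            change nn (Pi.single i (X + Y)) ∈ M
            rw [Pi.single_add, nn_add]
            exact M.mul_mem hX hY
          neg_mem' := by
            intro X hX
            change nn (Pi.single i (-X)) ∈ M
            have : -X = X := by rw [neg_eq_iff_add_eq_zero, madd]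
            rw [this]
            exact hX }
      have hNmem : ∀ X, X ∈ N ↔ nn (Pi.single i X) ∈ M := fun X => Iff.rfl
      have hsingle : ∀ (F : Matrix J I K → Matrix J I K) (hF : F 0 = 0) (X : Matrix J I K),
          (fun l => F ((Pi.single i X : Fin 3 → Matrix J I K) l)) = Pi.single i (F X) := by
        intro F hF X
        funext l
        by_cases h : l = i
        · subst h; simp
        · simp [h, hF]
      obtain ⟨X0, hX0⟩ : ∃ X0 : Matrix J I K,
          X0 + (g.b : Matrix J J K) * X0 * (↑g.a⁻¹ : Matrix I I K) ≠ 0 := by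
        by_contra hno
        push Not at hno
        have h1 : ∀ X : Matrix J I K, (g.b : Matrix J J K) * X = X * (g.a : Matrix I I K) := by
          intro X
          have h2 : X = (g.b : Matrix J J K) * X * (↑g.a⁻¹ : Matrix I I K) := by
            have := eq_add (hno X)
            rwa [zero_add] at this
          conv_rhs => rw [h2]
          rw [Matrix.mul_assoc, ← Units.val_mul, inv_mul_cancel, Units.val_one, Matrix.mul_one]
        have hJn : Nonempty J := Fintype.card_pos_iff.1 (by omega)
        obtain ⟨j0⟩ := hJn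
        -- the left action is trivial
        have hy : ∀ (y : J → K) (h : I → K), vecMulVec ((g.b : Matrix J J K) *ᵥ y) h =
            vecMulVec y (h ᵥ* (g.a : Matrix I I K)) := by
          intro y h
          have := h1 (vecMulVec y h)
          rwa [mul_vecMulVec, vecMulVec_mul] at this
        apply ha
        apply Units.ext
        apply Matrix.ext_of_single_vecMul
        intro k
        rw [Units.val_one, vecMul_one]
        have h3 : ∀ y : J → K, (g.b : Matrix J J K) *ᵥ y = y := by
          intro y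
          have h4 : ∀ j, ((g.b : Matrix J J K) *ᵥ y) j =
              y j * ((Pi.single k 1 : I → K) ᵥ* (g.a : Matrix I I K)) k := by
            intro j
            have := congrFun (congrFun (hy y (Pi.single k 1)) j) k
            rw [vecMulVec_apply, vecMulVec_apply, Pi.single_eq_same, mul_one] at this
            exact this
          rcases k2 (((Pi.single k 1 : I → K) ᵥ* (g.a : Matrix I I K)) k) with h5 | h5
          · have h6 : (g.b : Matrix J J K) *ᵥ y = 0 := by
              funext j
              rw [h4 j, h5, mul_zero]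
              rfl
            have h7 : y = 0 := by
              have := congrArg (fun z => (↑g.b⁻¹ : Matrix J J K) *ᵥ z) h6
              simp only [mulVec_mulVec, mulVec_zero] at this
              rwa [← Units.val_mul, inv_mul_cancel, Units.val_one, one_mulVec] at this
            rw [h6, h7]
          · funext j
            rw [h4 j, h5, mul_one]
        funext l
        have := congrFun (congrFun (hy (Pi.single j0 1) (Pi.single k 1)) j0) l
        rw [vecMulVec_apply, vecMulVec_apply, h3, Pi.single_eq_same, one_mul, one_mul] at this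
        exact this.symm
      have hY : X0 + (g.b : Matrix J J K) * X0 * (↑g.a⁻¹ : Matrix I I K) ∈ N := by
        rw [hNmem, Pi.single_add, nn_add]
        have h1 : nn (Pi.single i ((g.b : Matrix J J K) * X0 * (↑g.a⁻¹ : Matrix I I K))) =
            g * nn (Pi.single i X0) * g⁻¹ := by
          rw [conj_nn, ← hsingle (fun X => (g.b : Matrix J J K) * X * (↑g.a⁻¹ : Matrix I I K)) (by simp)]
        rw [h1]
        have h2 : nn (Pi.single i X0) * (g * nn (Pi.single i X0) * g⁻¹) =
            (nn (Pi.single i X0) * g * (nn (Pi.single i X0))⁻¹) * g⁻¹ := by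
          rw [nn_inv]; group
        rw [h2]
        exact M.mul_mem (hM.conj_mem _ hg _) (M.inv_mem hg)
      have htop := inv_sub_top hJ N (by
        intro X hX b
        have h1 := hconj _ hX (tB b)
        simp only [tB, MonoidHom.coe_mk, OneHom.coe_mk, inv_one, Units.val_one, Matrix.mul_one] at h1
        rw [hsingle (fun X => (b : Matrix J J K) * X) (by simp)] at h1
        exact h1) (by
        intro X hX a
        have h1 := hconj _ hX (tA a⁻¹)
        simp only [tA, MonoidHom.coe_mk, OneHom.coe_mk, inv_inv, Units.val_one, Matrix.one_mul] at h1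
        rw [hsingle (fun X => X * (a : Matrix I I K)) (by simp)] at h1
        exact h1) _ hY hX0
      intro X
      have : X ∈ N := by rw [htop]; trivial
      exact this
    intro m
    have : m = Pi.single 0 (m 0) + Pi.single 1 (m 1) + Pi.single 2 (m 2) := by
      funext l
      fin_cases l <;> simp
    rw [this, nn_add, nn_add]
    exact M.mul_mem (M.mul_mem (hi _ _) (hi _ _)) (hi _ _)
  have hred : ∀ x ∈ M, tA x.a * tB x.b ∈ M := by
    intro x hx
    have := decomp x
    have h2 : tA x.a * tB x.b = (nn (fun i => x.m i * (↑x.a⁻¹ : Matrix I I K)))⁻¹ * x := by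
      rw [eq_inv_mul_iff_mul_eq]
      exact this.symm
    rw [h2]
    exact M.mul_mem (M.inv_mem (hN _)) hx
  have hcomm : ∀ (a : (Matrix I I K)ˣ) (b : (Matrix J J K)ˣ),
      (tA a * tB b : GG I J) = tB b * tA a := by
    intro a b
    ext1
    · simp [tA, tB]
    · simp [tA, tB]
    · funext i; simp [tA, tB]
  have hAtop : M.comap tA = ⊤ := by
    obtain ⟨t, ht⟩ : ∃ t : (Matrix I I K)ˣ, g.a * t ≠ t * g.a := by
      by_contra hno
      push Not at hno
      exact ha (eq_one_of_commute g.a hno)
    apply GL_simple hI (M.comap tA) (g.a * t * g.a⁻¹ * t⁻¹)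
    · rw [Subgroup.mem_comap]
      have h1 := hred g hg
      have h2 := M.mul_mem h1 (hM.conj_mem _ (M.inv_mem h1) (tA t))
      have h3 : tA (g.a * t * g.a⁻¹ * t⁻¹) =
          tA g.a * tB g.b * (tA t * (tA g.a * tB g.b)⁻¹ * (tA t)⁻¹) := by
        rw [map_mul, map_mul, map_mul, map_inv, map_inv, _root_.mul_inv_rev]
        have e1 : tA g.a * tB g.b * (tA t * ((tB g.b)⁻¹ * (tA g.a)⁻¹) * (tA t)⁻¹) =
            tA g.a * (tB g.b * tA t) * (tB g.b)⁻¹ * (tA g.a)⁻¹ * (tA t)⁻¹ := by group
        rw [e1, ← hcomm]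
        group
      rw [h3]
      exact h2
    · intro h
      apply ht
      rw [mul_inv_eq_one, mul_inv_eq_iff_eq_mul] at h
      exact h
  have hBtop : M.comap tB = ⊤ := by
    obtain ⟨t, ht⟩ : ∃ t : (Matrix J J K)ˣ, g'.b * t ≠ t * g'.b := by
      by_contra hno
      push Not at hno
      exact hb (eq_one_of_commute g'.b hno)
    apply GL_simple hJ (M.comap tB) (g'.b * t * g'.b⁻¹ * t⁻¹)
    · rw [Subgroup.mem_comap]
      have h1 := hred g' hg'
      have h2 := M.mul_mem h1 (hM.conj_mem _ (M.inv_mem h1) (tB t))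
      have h3 : tB (g'.b * t * g'.b⁻¹ * t⁻¹) =
          tA g'.a * tB g'.b * (tB t * (tA g'.a * tB g'.b)⁻¹ * (tB t)⁻¹) := by
        rw [map_mul, map_mul, map_mul, map_inv, map_inv, hcomm, _root_.mul_inv_rev]
        have e1 : tB g'.b * tA g'.a * (tB t * ((tA g'.a)⁻¹ * (tB g'.b)⁻¹) * (tB t)⁻¹) =
            tB g'.b * (tA g'.a * tB t) * (tA g'.a)⁻¹ * (tB g'.b)⁻¹ * (tB t)⁻¹ := by group
        rw [e1, hcomm]
        group
      rw [h3]
      exact h2
    · intro h
      apply ht
      rw [mul_inv_eq_one, mul_inv_eq_iff_eq_mul] at h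
      exact h
  rw [eq_top_iff]
  intro x _
  rw [decomp x]
  refine M.mul_mem (hN _) (M.mul_mem ?_ ?_)
  · have : x.a ∈ M.comap (tA : (Matrix I I K)ˣ →* GG I J) := by rw [hAtop]; trivial
    exact this
  · have : x.b ∈ M.comap (tB : (Matrix J J K)ˣ →* GG I J) := by rw [hBtop]; trivial
    exact this

theorem phi_phi_top (hI : 3 ≤ Fintype.card I) (hJ : 3 ≤ Fintype.card J) (g : GG I J) (hg : g ≠ 1)
    (M : Subgroup (GG ((I ⊕ J) ⊕ (I ⊕ (J ⊕ J))) ((I ⊕ J) ⊕ ((I ⊕ (J ⊕ J)) ⊕ (I ⊕ (J ⊕ J))))))
    [hM : M.Normal] (h : phi (phi g) ∈ M) : M = ⊤ := by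
  have key : ∀ {I J : Type} [Fintype I] [DecidableEq I] [Fintype J] [DecidableEq J] (x : GG I J),
      (x.a ≠ 1 ∨ x.b ≠ 1) → (phi x).a ≠ 1 ∧ (phi x).b ≠ 1 := by
    intro I J _ _ _ _ x hx
    constructor
    · intro h
      have h1 := congrArg (fun u : (Matrix (I ⊕ J) (I ⊕ J) K)ˣ => (u : Matrix (I ⊕ J) (I ⊕ J) K)) h
      simp only [phi_a, Units.val_one] at h1
      rw [← fromBlocks_one, fromBlocks_inj] at h1
      rcases hx with hx | hx
      · exact hx (Units.ext h1.1)
      · exact hx (Units.ext h1.2.2.2)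
    · intro h
      have h1 := congrArg (fun u : (Matrix (I ⊕ (J ⊕ J)) (I ⊕ (J ⊕ J)) K)ˣ =>
        (u : Matrix (I ⊕ (J ⊕ J)) (I ⊕ (J ⊕ J)) K)) h
      simp only [phi_b, Units.val_one] at h1
      rw [← fromBlocks_one, fromBlocks_inj] at h1
      rcases hx with hx | hx
      · exact hx (Units.ext h1.1)
      · have h2 := h1.2.2.2
        rw [← fromBlocks_one, fromBlocks_inj] at h2
        exact hx (Units.ext h2.1)
  have hx : (phi g).a ≠ 1 ∨ (phi g).b ≠ 1 := by
    by_contra hno
    push Not at hno
    apply hg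
    have h1 := congrArg (fun u : (Matrix (I ⊕ J) (I ⊕ J) K)ˣ => (u : Matrix (I ⊕ J) (I ⊕ J) K)) hno.1
    have h2 := congrArg (fun u : (Matrix (I ⊕ (J ⊕ J)) (I ⊕ (J ⊕ J)) K)ˣ =>
        (u : Matrix (I ⊕ (J ⊕ J)) (I ⊕ (J ⊕ J)) K)) hno.2
    simp only [phi_a, phi_b, Units.val_one] at h1 h2
    rw [← fromBlocks_one, fromBlocks_inj] at h1 h2
    have h3 := h2.2.2.1
    rw [← fromRows_zero, fromRows_ext_iff] at h3
    ext1
    · exact Units.ext h1.1
    · exact Units.ext h1.2.2.2
    · funext i
      fin_cases i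
      · exact h3.1
      · exact h3.2
      · exact h1.2.2.1
  obtain ⟨h1, h2⟩ := key (phi g) hx
  refine GG_top ?_ ?_ M _ _ h h h1 h2
  · simp only [Fintype.card_sum]; omega
  · simp only [Fintype.card_sum]; omega

end H430.LF
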