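import Pool.Agent.Helper430.LF4

/-! The tower, its union, and the main theorem. -/

namespace H430.LF

open Matrix Function

set_option linter.unusedSectionVars false
set_option linter.unusedSimpArgs false

section limit

variable {G : ℕ → Type} [∀ n, Group (G n)] (j : ∀ n, G n →* G (n + 1))

/-- transition maps -/
def tr (i k : ℕ) (h : i ≤ k) : G i →* G k :=
  Nat.leRecOn (C := fun k => G i →* G k) h (fun {k} f => (j k).comp f) (MonoidHom.id (G i))

theorem tr_self (i : ℕ) : tr j i i le_rfl = MonoidHom.id (G i) := Nat.leRecOn_self _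

theorem tr_succ (i k : ℕ) (h : i ≤ k) (h' : i ≤ k + 1) : tr j i (k + 1) h' = (j k).comp (tr j i k h) :=
  Nat.leRecOn_succ h _

theorem tr_trans (i k l : ℕ) (h : i ≤ k) (h' : k ≤ l) (x : G i) :
    tr j k l h' (tr j i k h x) = tr j i l (h.trans h') x := by
  induction l, h' using Nat.le_induction with
  | base => rw [tr_self]; rfl
  | succ l h' ih =>
    rw [tr_succ j k l h', tr_succ j i l (h.trans h'), MonoidHom.comp_apply, MonoidHom.comp_apply, ih]

theorem tr_inj (hj : ∀ n, Injective (j n)) (i k : ℕ) (h : i ≤ k) : Injective (tr j i k h) := by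
  induction k, h using Nat.le_induction with
  | base => rw [tr_self]; exact injective_id
  | succ l h ih =>
    rw [tr_succ j i l h]
    exact (hj l).comp ih

instance dirSys : DirectedSystem G (fun i k h => tr j i k h) where
  map_self i x := by
    change tr j i i le_rfl x = x
    rw [tr_self]; rfl
  map_map k i l h h' x := tr_trans j l i k h h' x

/-- the union of an increasing sequence of groups (construction as in `H868.LFS`) -/
theorem exists_limit (hj : ∀ n, Injective (j n)) :
    ∃ (L : Type) (_ : Group L) (o : ∀ n, G n →* L), (∀ n, Injective (o n)) ∧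
      (∀ n x, o (n + 1) (j n x) = o n x) ∧ ∀ y : L, ∃ n x, y = o n x := by
  let o : ∀ n, G n →* DirectLimit G (tr j) := fun n =>
    { toFun := fun x => ⟦⟨n, x⟩⟧
      map_one' := (DirectLimit.one_def n).symm
      map_mul' := fun x y => (DirectLimit.mul_def n x y).symm }
  refine ⟨DirectLimit G (tr j), inferInstance, o, ?_, ?_, ?_⟩
  · intro n
    exact DirectLimit.mk_injective (tr j) (fun i k h => tr_inj j hj i k h) n
  · intro n x
    have h1 : j n x = tr j n (n + 1) (Nat.le_succ n) x := by
      rw [tr_succ j n n le_rfl, MonoidHom.comp_apply, tr_self]; rfl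
    rw [h1]
    apply Quotient.sound
    exact ⟨n + 1, le_rfl, Nat.le_succ n, by
      change tr j (n + 1) (n + 1) le_rfl _ = tr j n (n + 1) _ x
      rw [tr_self]; rfl⟩
  · intro y
    obtain ⟨i, x, hx⟩ := DirectLimit.exists_eq_mk (tr j) y
    exact ⟨i, x, hx⟩

end limit

/-- index data of a stage -/
structure St where
  I : Type
  J : Type
  [fI : Fintype I]
  [dI : DecidableEq I]
  [fJ : Fintype J]
  [dJ : DecidableEq J]
  hI : 3 ≤ Fintype.card I
  hJ : 3 ≤ Fintype.card J

attribute [instance] St.fI St.dI St.fJ St.dJ

def St.next (s : St) : St where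
  I := s.I ⊕ s.J
  J := s.I ⊕ (s.J ⊕ s.J)
  hI := by have := s.hI; simp only [Fintype.card_sum]; omega
  hJ := by have := s.hJ; simp only [Fintype.card_sum]; omega

def st : ℕ → St
  | 0 => { I := Fin 3, J := Fin 3, hI := by simp, hJ := by simp }
  | n + 1 => (st n).next

abbrev GT (n : ℕ) : Type := GG (st n).I (st n).J

noncomputable def jT (n : ℕ) : GT n →* GT (n + 1) := (phi : GG (st n).I (st n).J →* _)

theorem jT_inj (n : ℕ) : Injective (jT n) := phi_inj

theorem card_st (n : ℕ) : n ≤ Fintype.card (st n).I := by
  induction n with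
  | zero => exact Nat.zero_le _
  | succ n ih =>
    have h1 : Fintype.card (st (n + 1)).I = Fintype.card (st n).I + Fintype.card (st n).J := by
      change Fintype.card ((st n).I ⊕ (st n).J) = _
      exact Fintype.card_sum
    have := (st n).hJ
    omega

/-- images of the bottom stage -/
noncomputable def rT : ∀ n, GT 0 →* GT n
  | 0 => MonoidHom.id _
  | n + 1 => (jT n).comp (rT n)

theorem good_rT (n : ℕ) : Good (rT n) := by
  induction n with
  | zero => exact good_id (st 0).hI (st 0).hJ
  | succ n ih => exact ih.next

/-- noncommuting pairs in disjoint blocks -/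
theorem pairs (N n : ℕ) (hn : 2 * N ≤ Fintype.card (st n).I) :
    ∃ s t : Fin N → GT n, (∀ i k, i ≠ k → s i * t k = t k * s i) ∧ ∀ i, s i * t i ≠ t i * s i := by
  obtain ⟨e⟩ : Nonempty (Fin N × Bool ↪ (st n).I) := by
    apply Function.Embedding.nonempty_of_card_le
    simp only [Fintype.card_prod, Fintype.card_fin, Fintype.card_bool]
    omega
  have hdot : ∀ p q : Fin N × Bool, (Pi.single (e p) 1 : (st n).I → K) ⬝ᵥ (Pi.single (e q) 1) =
      if p = q then 1 else 0 := by
    intro p q
    rw [single_dotProduct, one_mul, Pi.single_apply]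
    by_cases h : p = q
    · subst h; simp
    · rw [if_neg h, if_neg (fun h' => h (e.injective h'))]
  have h0 : ∀ i : Fin N, (Pi.single (e (i, true)) 1 : (st n).I → K) ⬝ᵥ (Pi.single (e (i, false)) 1) = 0 := by
    intro i; rw [hdot]; simp
  have h1 : ∀ i : Fin N, (Pi.single (e (i, false)) 1 : (st n).I → K) ⬝ᵥ (Pi.single (e (i, true)) 1) = 0 := by
    intro i; rw [hdot]; simp
  refine ⟨fun i => tA (tv _ _ (h0 i)), fun i => tA (tv _ _ (h1 i)), ?_, ?_⟩
  · intro i k hik
    rw [← map_mul, ← map_mul]
    congr 1
    apply Units.ext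
    rw [Units.val_mul, Units.val_mul, tv_val, tv_val, mul_add, add_mul, add_mul, mul_add, add_mul, add_mul,
      vmv_mul, vmv_mul, hdot, hdot]
    have e1 : ((i, true) : Fin N × Bool) ≠ (k, true) := by simp [hik]
    have e2 : ((k, false) : Fin N × Bool) ≠ (i, false) := by simp [Ne.symm hik]
    rw [if_neg e1, if_neg e2]
    simp only [one_mul, mul_one, zero_smul, add_zero]
    abel
  · intro i h
    rw [← map_mul, ← map_mul] at h
    have h2 := congrArg (fun x : GT n => (x.a : Matrix (st n).I (st n).I K)) h
    simp only [tA, MonoidHom.coe_mk, OneHom.coe_mk] at h2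
    rw [Units.val_mul, Units.val_mul, tv_val, tv_val, mul_add, add_mul, add_mul, mul_add, add_mul, add_mul,
      vmv_mul, vmv_mul, hdot, hdot] at h2
    simp only [one_mul, mul_one, if_true, one_smul] at h2
    have h3 : vecMulVec (Pi.single (e (i, false)) 1 : (st n).I → K) (Pi.single (e (i, false)) 1 : (st n).I → K) =
        vecMulVec (Pi.single (e (i, true)) 1 : (st n).I → K) (Pi.single (e (i, true)) 1 : (st n).I → K) := by
      have gen : ∀ A B C D : Matrix (st n).I (st n).I K, 1 + A + (B + C) = 1 + B + (A + D) → C = D := by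
        intro A B C D h
        have h5 : (1 + A + B) + C = (1 + A + B) + D := by
          rw [add_assoc (1 + A), h]; abel
        exact add_left_cancel h5
      exact gen _ _ _ _ h2
    have h4 := congrFun (congrFun h3 (e (i, true))) (e (i, true))
    rw [vecMulVec_apply, vecMulVec_apply, Pi.single_eq_same,
      Pi.single_eq_of_ne (by intro h; simpa using e.injective h)] at h4
    simp at h4

theorem main.{u} : ∃ (G : Type) (_ : Group G), Infinite G ∧ IsSimpleGroup G ∧
    (∀ H : Subgroup G, H.FG → Finite H) ∧
    (∃ F : Subgroup G, Finite F ∧ Subgroup.centralizer (F : Set G) = ⊥) ∧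
    ∀ (k : Type u) [Field k] (n : ℕ) (f : G →* GL (Fin n) k), ¬ Injective f := by
  obtain ⟨L, _, o, hinj, hcompat, hunion⟩ := exists_limit (G := GT) jT jT_inj
  have hmono : ∀ n m, n ≤ m → ∀ x : GT n, ∃ y : GT m, o n x = o m y := by
    intro n m h
    induction m, h using Nat.le_induction with
    | base => intro x; exact ⟨x, rfl⟩
    | succ m h ih =>
      intro x
      obtain ⟨y, hy⟩ := ih x
      exact ⟨jT m y, by rw [hcompat, hy]⟩
  have hfin : ∀ S : Finset L, ∃ m, ∀ s ∈ S, s ∈ (o m).range := by
    classical
    intro S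
    induction S using Finset.induction_on with
    | empty => exact ⟨0, by simp⟩
    | insert a S ha ih =>
      obtain ⟨m, hm⟩ := ih
      obtain ⟨n, x, hx⟩ := hunion a
      refine ⟨max m n, ?_⟩
      intro s hs
      rw [Finset.mem_insert] at hs
      rcases hs with rfl | hs
      · obtain ⟨y, hy⟩ := hmono n (max m n) (le_max_right _ _) x
        exact ⟨y, by rw [hx, hy]⟩
      · obtain ⟨z, hz⟩ := hm s hs
        obtain ⟨y, hy⟩ := hmono m (max m n) (le_max_left _ _) z
        exact ⟨y, by rw [← hz, hy]⟩
  have hr : ∀ n x, o n (rT n x) = o 0 x := by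
    intro n
    induction n with
    | zero => intro x; rfl
    | succ n ih =>
      intro x
      rw [← ih x]
      exact hcompat n (rT n x)
  refine ⟨L, inferInstance, ?_, ?_, ?_, ?_, ?_⟩
  · -- infinite
    by_contra hno
    rw [not_infinite_iff_finite] at hno
    obtain ⟨s, t, h1, h2⟩ := pairs (Nat.card L + 1) (2 * (Nat.card L + 1)) (card_st _)
    have hs : Injective (fun i => o _ (s i)) := by
      intro i k hik
      have hik' : s i = s k := hinj _ hik
      by_contra hne
      apply h2 i
      have := h1 k i (Ne.symm hne)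
      rw [← hik'] at this
      exact this
    have := Nat.card_le_card_of_injective _ hs
    rw [Nat.card_fin] at this
    omega
  · -- simplicity
    have hnt : Nontrivial L := by
      obtain ⟨s, t, -, hst⟩ := pairs 1 2 (card_st 2)
      refine ⟨o 2 (s 0 * t 0), o 2 (t 0 * s 0), ?_⟩
      intro h
      exact hst 0 (hinj 2 h)
    refine ⟨fun M hM => ?_⟩
    by_cases hbot : M = ⊥
    · exact Or.inl hbot
    · right
      obtain ⟨g, hg, hg1⟩ := (Subgroup.bot_or_exists_ne_one M).resolve_left hbot
      rw [eq_top_iff]
      intro y _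
      classical
      obtain ⟨m, hm⟩ := hfin {g, y}
      obtain ⟨x, hx⟩ := hm g (by simp)
      obtain ⟨z, hz⟩ := hm y (by simp)
      have hx1 : x ≠ 1 := by
        rintro rfl
        exact hg1 (by rw [← hx, map_one])
      have htop : M.comap (o (m + 2)) = ⊤ := by
        have hnorm : (M.comap (o (m + 2))).Normal := hM.comap _
        have hmem : jT (m + 1) (jT m x) ∈ M.comap (o (m + 2)) := by
          rw [Subgroup.mem_comap, hcompat, hcompat, hx]
          exact hg
        exact phi_phi_top (hM := hnorm) (st m).hI (st m).hJ x hx1 (M.comap (o (m + 2))) hmem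
      have : jT (m + 1) (jT m z) ∈ M.comap (o (m + 2)) := by rw [htop]; trivial
      rw [Subgroup.mem_comap, hcompat, hcompat, hz] at this
      exact this
  · -- local finiteness
    intro H hH
    obtain ⟨S, hS⟩ := hH
    obtain ⟨m, hm⟩ := hfin S
    have hle : H ≤ (o m).range := by
      rw [← hS, Subgroup.closure_le]
      intro s hs
      exact hm s hs
    have : Finite (o m).range := by
      have := Set.finite_range (o m)
      exact this.to_subtype
    exact Finite.of_injective _ (Subgroup.inclusion_injective hle)
  · -- the finite subgroup with trivial centralizer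
    refine ⟨(o 0).range, ?_, ?_⟩
    · have := Set.finite_range (o 0)
      exact this.to_subtype
    · rw [eq_bot_iff]
      intro y hy
      rw [Subgroup.mem_centralizer_iff] at hy
      obtain ⟨n, x, rfl⟩ := hunion y
      have hx : x = 1 := by
        apply (good_rT n).centralizer x
        intro h
        apply hinj n
        rw [map_mul, map_mul, hr]
        exact hy _ ⟨h, rfl⟩
      rw [hx, map_one]
      exact Subgroup.mem_bot.2 rfl
  · -- not linear
    intro k _ n f hf
    set N := n * n + 1 with hN
    obtain ⟨s, t, h1, h2⟩ := pairs N (2 * N) (card_st (2 * N))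
    let S : Fin N → Matrix (Fin n) (Fin n) k := fun i => (f (o _ (s i)) : Matrix (Fin n) (Fin n) k)
    let T : Fin N → Matrix (Fin n) (Fin n) k := fun i => (f (o _ (t i)) : Matrix (Fin n) (Fin n) k)
    have hcomm : ∀ i j, i ≠ j → S i * T j = T j * S i := by
      intro i j hij
      simp only [S, T]
      rw [← Units.val_mul, ← Units.val_mul, ← map_mul, ← map_mul, ← map_mul, ← map_mul, h1 i j hij]
    have hnc : ∀ i, S i * T i ≠ T i * S i := by
      intro i h
      simp only [S, T] at h
      rw [← Units.val_mul, ← Units.val_mul, ← map_mul, ← map_mul, ← map_mul, ← map_mul] at h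
      exact h2 i (hinj _ (hf (Units.ext h)))
    have hdep : ¬ LinearIndependent k S := by
      intro hli
      have := hli.fintype_card_le_finrank
      rw [Module.finrank_matrix, Module.finrank_self, Fintype.card_fin, Fintype.card_fin, mul_one] at this
      omega
    rw [Fintype.not_linearIndependent_iff] at hdep
    obtain ⟨c, hc, i, hi⟩ := hdep
    apply hnc i
    have e1 : (∑ j, c j • S j) * T i = T i * (∑ j, c j • S j) := by rw [hc]; simp
    rw [Finset.sum_mul, Finset.mul_sum, ← Finset.add_sum_erase _ _ (Finset.mem_univ i),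
      ← Finset.add_sum_erase _ (fun j => T i * c j • S j) (Finset.mem_univ i)] at e1
    have e2 : ∑ x ∈ Finset.univ.erase i, c x • S x * T i =
        ∑ x ∈ Finset.univ.erase i, T i * c x • S x := by
      apply Finset.sum_congr rfl
      intro x hx
      rw [Matrix.smul_mul, Matrix.mul_smul, hcomm x i (Finset.ne_of_mem_erase hx)]
    rw [e2] at e1
    have e3 := add_right_cancel e1
    simp only [Matrix.smul_mul, Matrix.mul_smul] at e3
    exact smul_right_injective _ hi e3

end H430.LF
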