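import Mathlib
import Pool.Agent.Helper430.SCWind
import Pool.Agent.Helper430.SCLine

/-! Small cancellation over groups with an integer Lyndon length (plan of helper844, doc 955). -/

set_option autoImplicit false

namespace Pool.Agent.Helper430.SC

open Relation

/-- integer valued Lyndon length (four point condition) on a group -/
structure LenGroup (G : Type*) [Group G] where
  len : G → ℕ
  len_one : len 1 = 0
  eq_one : ∀ g, len g = 0 → g = 1
  len_inv : ∀ g, len g⁻¹ = len g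
  fp : ∀ u v w z : G, len (u⁻¹ * v) + len (w⁻¹ * z) ≤
      max (len (u⁻¹ * w) + len (v⁻¹ * z)) (len (u⁻¹ * z) + len (v⁻¹ * w))
  step : ∀ g, g ≠ 1 → ∃ h, len h + 1 = len g ∧ len (h⁻¹ * g) = 1

variable {G : Type*} [Group G] (Λ : LenGroup G)

/-- the metric of a length function -/
def LenGroup.met : Met G where
  d u v := Λ.len (u⁻¹ * v)
  d_self u := by rw [inv_mul_cancel, Λ.len_one]
  d_eq u v h := by
    have := Λ.eq_one _ h
    exact (inv_mul_eq_one.1 this)
  d_comm u v := by rw [← Λ.len_inv, mul_inv_rev, inv_inv]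
  fp := Λ.fp

theorem LenGroup.met_d (u v : G) : Λ.met.d u v = Λ.len (u⁻¹ * v) := rfl

theorem LenGroup.met_smul (g u v : G) : Λ.met.d (g * u) (g * v) = Λ.met.d u v := by
  rw [Λ.met_d, Λ.met_d]
  congr 1
  group

/-- the data of a small cancellation presentation -/
structure Data (ι : Type*) where
  y : ι → ℤ → G
  t : ι → G
  τ : ι → ℕ
  hline : ∀ i a b, Λ.len ((y i a)⁻¹ * y i b) = (a - b).natAbs
  htr : ∀ i k, t i * y i k = y i (k + τ i)
  hτ : ∀ i, 1000 ≤ τ i
  hsc : ∀ i j (g : G) (k k' : ℤ) (ε : ℤ), (ε = 1 ∨ ε = -1) →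
       (∀ e : ℕ, e ≤ τ i / 50 → y i (k + e) = g * y j (k' + ε * e)) →
       (Set.range (y i) = (fun w => g * w) '' Set.range (y j)) ∧ τ i = τ j

variable {Λ} {ι : Type*} (D : Data Λ ι)

namespace Data

/-- translates of the lines -/
def L : Type _ := {Y : Set G // ∃ i g, Y = (fun w => g * w) '' Set.range (D.y i)}

instance : MulAction G D.L where
  smul g Y := ⟨(fun w => g * w) '' Y.1, by
    obtain ⟨i, h, hY⟩ := Y.2
    refine ⟨i, g * h, ?_⟩
    rw [hY, Set.image_image]
    simp only [mul_assoc]⟩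
  one_smul Y := by
    apply Subtype.ext
    change (fun w => 1 * w) '' Y.1 = Y.1
    simp
  mul_smul g h Y := by
    apply Subtype.ext
    change (fun w => (g * h) * w) '' Y.1 = (fun w => g * w) '' ((fun w => h * w) '' Y.1)
    rw [Set.image_image]
    simp only [mul_assoc]

theorem smul_val (g : G) (Y : D.L) : (g • Y).1 = (fun w => g * w) '' Y.1 := rfl

noncomputable def idx (Y : D.L) : ι := Y.2.choose

noncomputable def gg (Y : D.L) : G := Y.2.choose_spec.choose

theorem hgg (Y : D.L) : Y.1 = (fun w => D.gg Y * w) '' Set.range (D.y (D.idx Y)) :=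
  Y.2.choose_spec.choose_spec

/-- a translate of a line, parametrised -/
def ln (i : ι) (g : G) : Line Λ.met where
  y k := g * D.y i k
  hy a b := by rw [Λ.met_smul, Λ.met_d, D.hline]

theorem ln_range (i : ι) (g : G) :
    Set.range (D.ln i g).y = (fun w => g * w) '' Set.range (D.y i) := by
  rw [← Set.range_comp]
  rfl

/-- the chosen parametrisation -/
noncomputable def P (Y : D.L) : Line Λ.met := D.ln (D.idx Y) (D.gg Y)

theorem P_range (Y : D.L) : Set.range (D.P Y).y = Y.1 := by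
  rw [D.hgg Y]
  exact D.ln_range _ _

/-- the translation length of a line -/
noncomputable def tau (Y : D.L) : ℕ := D.τ (D.idx Y)

theorem tau_eq_aux (i j : ι) (g h : G)
    (H : Set.range (D.ln i g).y = Set.range (D.ln j h).y) : D.τ i = D.τ j := by
  obtain ⟨c, ε, hε, hc⟩ := (D.ln i g).param (D.ln j h) (by rw [H])
  refine (D.hsc i j (g⁻¹ * h) 0 c ε hε ?_).2
  intro e _
  have := hc e
  change g * D.y i e = h * D.y j (c + ε * e) at this
  rw [zero_add, mul_assoc, ← this]
  group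

theorem tau_eq (Y : D.L) (i : ι) (g : G) (H : Y.1 = Set.range (D.ln i g).y) : D.tau Y = D.τ i := by
  apply D.tau_eq_aux _ _ (D.gg Y) g
  rw [← H]
  exact D.P_range Y

theorem tau_smul (g : G) (Y : D.L) : D.tau (g • Y) = D.tau Y := by
  apply D.tau_eq _ (D.idx Y) (g * D.gg Y)
  rw [D.ln_range, smul_val]
  conv_lhs => rw [D.hgg Y]
  rw [Set.image_image]
  simp only [mul_assoc]

/-- the rotations of a line -/
def rot (Y : D.L) : Subgroup G :=
  Subgroup.closure {r | ∃ i g, Y.1 = Set.range (D.ln i g).y ∧ r = g * D.t i * g⁻¹}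

theorem rot_tr (Y : D.L) {r : G} (hr : r ∈ D.rot Y) :
    ∃ c : ℤ, (D.tau Y : ℤ) ∣ c ∧ ∀ k, r * (D.P Y).y k = (D.P Y).y (k + c) := by
  induction hr using Subgroup.closure_induction with
  | mem x hx =>
    obtain ⟨i, g, hY, rfl⟩ := hx
    obtain ⟨c, ε, hε, hc⟩ := (D.P Y).param (D.ln i g) (by rw [D.P_range, hY])
    have ht := D.tau_eq Y i g hY
    refine ⟨ε * D.τ i, ?_, ?_⟩
    · rw [ht]
      exact Dvd.intro_left ε rfl
    · intro k
      rw [hc, hc]
      change g * D.t i * g⁻¹ * (g * D.y i (c + ε * k)) = g * D.y i (c + ε * (k + ε * D.τ i))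
      have h1 : c + ε * (k + ε * (D.τ i : ℤ)) = c + ε * k + D.τ i := by
        rcases hε with rfl | rfl <;> ring
      rw [h1, ← D.htr]
      group
  | one => exact ⟨0, dvd_zero _, fun k => by rw [one_mul, add_zero]⟩
  | mul x z _ _ ihx ihz =>
    obtain ⟨c, h1, h2⟩ := ihx
    obtain ⟨c', h1', h2'⟩ := ihz
    refine ⟨c' + c, dvd_add h1' h1, fun k => ?_⟩
    rw [mul_assoc, h2', h2, add_assoc]
  | inv x _ ih =>
    obtain ⟨c, h1, h2⟩ := ih
    refine ⟨-c, (dvd_neg).2 h1, fun k => ?_⟩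
    rw [inv_mul_eq_iff_eq_mul, h2]
    congr 1
    ring

theorem rot_conj (g : G) (Y : D.L) (r : G) (hr : r ∈ D.rot Y) : g * r * g⁻¹ ∈ D.rot (g • Y) := by
  induction hr using Subgroup.closure_induction with
  | mem x hx =>
    obtain ⟨i, h, hY, rfl⟩ := hx
    apply Subgroup.subset_closure
    refine ⟨i, g * h, ?_, by group⟩
    rw [D.ln_range, smul_val, hY, D.ln_range, Set.image_image]
    simp only [mul_assoc]
  | one => simp
  | mul x z _ _ ihx ihz =>
    have : g * (x * z) * g⁻¹ = (g * x * g⁻¹) * (g * z * g⁻¹) := by group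
    rw [this]
    exact Subgroup.mul_mem _ ihx ihz
  | inv x _ ih =>
    have : g * x⁻¹ * g⁻¹ = (g * x * g⁻¹)⁻¹ := by group
    rw [this]
    exact Subgroup.inv_mem _ ih

theorem rot_fix (Y : D.L) (r : G) (hr : r ∈ D.rot Y) : r • Y = Y := by
  obtain ⟨c, _, hc⟩ := D.rot_tr Y hr
  apply Subtype.ext
  rw [smul_val, ← D.P_range Y]
  ext w
  constructor
  · rintro ⟨_, ⟨k, rfl⟩, rfl⟩
    exact ⟨k + c, (hc k).symm⟩
  · rintro ⟨k, rfl⟩
    refine ⟨(D.P Y).y (k - c), ⟨k - c, rfl⟩, ?_⟩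
    simp only [hc]
    congr 1
    ring

/-- the projection distance -/
noncomputable def dd (Y : D.L) (u v : G) : ℕ := ((D.P Y).pr u - (D.P Y).pr v).natAbs

theorem dd_smul (g : G) (Y : D.L) (u v : G) : D.dd (g • Y) (g * u) (g * v) = D.dd Y u v := by
  have hr : Set.range (D.P (g • Y)).y ⊆ Set.range (D.ln (D.idx Y) (g * D.gg Y)).y := by
    rw [D.P_range, smul_val, D.ln_range]
    conv_lhs => rw [D.hgg Y]
    rw [Set.image_image]
    simp only [mul_assoc]
    exact le_rfl
  obtain ⟨c, ε, hε, hc⟩ := Line.param _ _ hr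
  have h1 : ∀ u, (D.P (g • Y)).pr (g * u) = ε * ((D.P Y).pr u - 2 * c) := by
    intro u
    apply Line.pr_trans _ _ _ _ hε
    intro k
    rw [hc]
    change Λ.met.d (g * u) (g * D.gg Y * D.y (D.idx Y) (c + ε * k)) =
      Λ.met.d u (D.gg Y * D.y (D.idx Y) (c + ε * k))
    rw [mul_assoc, Λ.met_smul]
  unfold dd
  rw [h1, h1]
  rcases hε with rfl | rfl <;> omega

theorem path_line (l : Line Λ.met) (a : ℤ) (n : ℕ) :
    ReflTransGen (fun u v => Λ.met.d u v = 1 ∧ v ∈ Set.range l.y) (l.y a) (l.y (a + n)) ∧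
    ReflTransGen (fun u v => Λ.met.d u v = 1 ∧ v ∈ Set.range l.y) (l.y a) (l.y (a - n)) := by
  induction n with
  | zero => simp [ReflTransGen.refl]
  | succ n ih =>
    refine ⟨ih.1.tail ⟨?_, ⟨_, rfl⟩⟩, ih.2.tail ⟨?_, ⟨_, rfl⟩⟩⟩
    · rw [l.hy]; push_cast; omega
    · rw [l.hy]; push_cast; omega

theorem conn_aux (n : ℕ) : ∀ u v : G, Λ.len (u⁻¹ * v) = n →
    ReflTransGen (fun u v : G => Λ.met.d u v = 1) u v := by
  induction n with
  | zero =>
    intro u v h
    have := Λ.met.d_eq u v h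
    rw [this]
  | succ n ih =>
    intro u v h
    have hne : u⁻¹ * v ≠ 1 := by
      intro h1
      rw [h1, Λ.len_one] at h
      omega
    obtain ⟨w, hw1, hw2⟩ := Λ.step _ hne
    refine (ih u (u * w) ?_).tail ?_
    · rw [inv_mul_cancel_left]
      omega
    · rw [Λ.met_d]
      rw [mul_inv_rev, mul_assoc]
      exact hw2

/-- the projection system of small cancellation data -/
noncomputable def sys : Sys G G D.L where
  adj u v := Λ.met.d u v = 1
  on Y v := v ∈ Y.1
  d := D.dd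
  rot := D.rot
  th Y := 2 * (D.tau Y / 50)
  T Y := 2 * D.tau Y
  adj_symm u v h := by rw [Λ.met.d_comm]; exact h
  adj_smul g u v h := by
    change Λ.met.d (g * u) (g * v) = 1
    rw [Λ.met_smul]; exact h
  conn u v := conn_aux _ u v rfl
  on_smul g Y v h := ⟨v, h, rfl⟩
  d_self Y u := by unfold dd; omega
  d_comm Y u v := by unfold dd; omega
  d_tri Y u v w := by unfold dd; omega
  d_smul g Y u v := D.dd_smul g Y u v
  d_adj Y u v h := by
    have := (D.P Y).pr_lip u v
    unfold dd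
    omega
  d_adj0 Y u v h hu hv := by
    have := (D.P Y).adj_off u v h
      (fun k hk => hu (by rw [← D.P_range Y]; exact ⟨k, hk.symm⟩))
      (fun k hk => hv (by rw [← D.P_range Y]; exact ⟨k, hk.symm⟩))
    unfold dd
    omega
  line_ne Y := ⟨(D.P Y).y 0, by rw [← D.P_range Y]; exact ⟨0, rfl⟩⟩
  line_conn Y u v hu hv := by
    rw [← D.P_range Y] at hu hv
    obtain ⟨a, rfl⟩ := hu
    obtain ⟨b, rfl⟩ := hv
    have h := path_line (D.P Y) a (b - a).natAbs
    rw [← D.P_range Y]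
    rcases le_total a b with hab | hab
    · have : a + ((b - a).natAbs : ℤ) = b := by omega
      rw [this] at h
      exact h.1
    · have : a - ((b - a).natAbs : ℤ) = b := by omega
      rw [this] at h
      exact h.2
  th_smul g Y := by rw [D.tau_smul]
  T_smul g Y := by rw [D.tau_smul]
  hT Y := by
    have : 1000 ≤ D.tau Y := D.hτ _
    omega
  ov Y Z u v hYZ hu hv := by
    rw [← D.P_range Z] at hu hv
    obtain ⟨a, rfl⟩ := hu
    obtain ⟨b, rfl⟩ := hv
    by_contra hcon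
    push Not at hcon
    apply hYZ
    obtain ⟨k, k', ε, hε, h⟩ := (D.P Y).overlap (D.P Z) a b (D.tau Y / 50) hcon
    have h2 := (D.hsc (D.idx Y) (D.idx Z) ((D.gg Y)⁻¹ * D.gg Z) k k' ε hε (by
      intro e he
      have h3 := h e he
      change D.gg Y * D.y (D.idx Y) (k + e) = D.gg Z * D.y (D.idx Z) (k' + ε * e) at h3
      rw [mul_assoc, ← h3]
      group)).1
    apply Subtype.ext
    rw [D.hgg Y, D.hgg Z, h2, Set.image_image]
    congr 1
    funext w
    group
  beh Y Z v _ := by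
    rcases (D.P Y).beh (D.P Z) v with ⟨k, hk⟩ | ⟨k, hk⟩
    · exact Or.inl ⟨(D.P Z).y k, by rw [← D.P_range Z]; exact ⟨k, rfl⟩, hk⟩
    · refine Or.inr ⟨(D.P Y).y k, by rw [← D.P_range Y]; exact ⟨k, rfl⟩, ?_⟩
      unfold dd
      omega
  rot_conj := D.rot_conj
  rot_fix := D.rot_fix
  rot_big Y r v hr hr1 := by
    obtain ⟨c, hc, hrc⟩ := D.rot_tr Y hr
    have hc0 : c ≠ 0 := by
      intro h
      apply hr1
      have := hrc 0
      rw [h, add_zero] at this
      exact mul_eq_right.1 this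
    have h1 : (D.tau Y : ℤ) ≤ c.natAbs := by
      have := Int.natAbs_dvd_natAbs.2 hc
      have h2 := Nat.le_of_dvd (by omega) this
      simp only [Int.natAbs_natCast] at h2
      exact_mod_cast h2
    have h2 := Line.pr_trans (D.P Y) (D.P Y) (-c) 1 (Or.inl rfl) v (r * v) (by
      intro k
      have h3 := hrc (-c + 1 * k)
      have h4 : -c + 1 * k + c = k := by ring
      rw [h4] at h3
      rw [← h3, Λ.met_smul])
    change 2 * D.tau Y ≤ D.dd Y v (r * v)
    unfold dd
    omega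

/-- the main theorem in quantitative form -/
theorem main {n : G} (hn : n ∈ Subgroup.normalClosure (Set.range D.t)) (h1 : n ≠ 1) :
    ∃ i, 2 * D.τ i ≤ 2 * Λ.len n + (8 * (D.τ i / 50) + 4) := by
  have hn' : n ∈ Subgroup.closure {r | ∃ Y, r ∈ D.sys.rot Y} := by
    have hle : Subgroup.normalClosure (Set.range D.t) ≤
        Subgroup.closure {r | ∃ Y, r ∈ D.sys.rot Y} := by
      unfold Subgroup.normalClosure
      rw [Subgroup.closure_le]
      intro x hx
      rw [Group.mem_conjugatesOfSet_iff] at hx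
      obtain ⟨a, ⟨i, rfl⟩, hx⟩ := hx
      rw [isConj_iff] at hx
      obtain ⟨g, rfl⟩ := hx
      apply Subgroup.subset_closure
      refine ⟨⟨Set.range (D.ln i g).y, i, g, D.ln_range i g⟩, ?_⟩
      apply Subgroup.subset_closure
      exact ⟨i, g, rfl, rfl⟩
    exact hle hn
  obtain ⟨Y, hY⟩ := wind_main D.sys (1 : G) hn' h1
  refine ⟨D.idx Y, ?_⟩
  change 2 * D.tau Y ≤ D.dd Y 1 (n * 1) + (4 * (2 * (D.tau Y / 50)) + 4) at hY
  have h2 := (D.P Y).pr_lip 1 (n * 1)
  have h3 : Λ.met.d 1 (n * 1) = Λ.len n := by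
    rw [Λ.met_d]
    congr 1
    group
  rw [h3] at h2
  unfold dd at hY
  change 2 * D.tau Y ≤ 2 * Λ.len n + (8 * (D.tau Y / 50) + 4)
  omega

end Data

/-- quantitative small cancellation theorem -/
theorem sc_quant {G : Type*} [Group G] (Λ : LenGroup G) {ι : Type*}
    (y : ι → ℤ → G) (t : ι → G) (τ : ι → ℕ)
    (hline : ∀ i a b, Λ.len ((y i a)⁻¹ * y i b) = (a - b).natAbs)
    (htr : ∀ i k, t i * y i k = y i (k + τ i))
    (hτ : ∀ i, 1000 ≤ τ i)
    (hsc : ∀ i j (g : G) (k k' : ℤ) (ε : ℤ), (ε = 1 ∨ ε = -1) →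
       (∀ e : ℕ, e ≤ τ i / 50 → y i (k + e) = g * y j (k' + ε * e)) →
       (Set.range (y i) = (fun w => g * w) '' Set.range (y j)) ∧ τ i = τ j) :
    ∀ n ∈ Subgroup.normalClosure (Set.range t), n ≠ 1 →
      ∃ i, 2 * τ i ≤ 2 * Λ.len n + (8 * (τ i / 50) + 4) := by
  intro n hn h1
  exact (Data.mk y t τ hline htr hτ hsc : Data Λ ι).main hn h1

/-- **small cancellation theorem** -/
theorem sc_main {G : Type*} [Group G] (Λ : LenGroup G) {ι : Type*}
    (y : ι → ℤ → G) (t : ι → G) (τ : ι → ℕ)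
    (hline : ∀ i a b, Λ.len ((y i a)⁻¹ * y i b) = (a - b).natAbs)
    (htr : ∀ i k, t i * y i k = y i (k + τ i))
    (hτ : ∀ i, 1000 ≤ τ i)
    (hsc : ∀ i j (g : G) (k k' : ℤ) (ε : ℤ), (ε = 1 ∨ ε = -1) →
       (∀ e : ℕ, e ≤ τ i / 50 → y i (k + e) = g * y j (k' + ε * e)) →
       (Set.range (y i) = (fun w => g * w) '' Set.range (y j)) ∧ τ i = τ j) :
    ∀ n ∈ Subgroup.normalClosure (Set.range t), n ≠ 1 → 3 ≤ Λ.len n := by
  intro n hn h1
  obtain ⟨i, hi⟩ := sc_quant Λ y t τ hline htr hτ hsc n hn h1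
  have := hτ i
  omega

end Pool.Agent.Helper430.SC
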