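import Mathlib
import Pool.Agent.Helper430.SCMain

/-! Small cancellation over free products, syllable sequences. -/

set_option autoImplicit false
set_option linter.unusedSectionVars false

namespace Pool.Agent.Helper430.SC

open Monoid

section free

variable {κ : Type*} {M : κ → Type*} [∀ k, Group (M k)]

/-- inverse of a syllable -/
def sinv (x : Σ k, M k) : Σ k, M k := ⟨x.1, x.2⁻¹⟩

theorem sinv_sinv (x : Σ k, M k) : sinv (sinv x) = x := by
  unfold sinv
  simp

theorem sinv_fst (x : Σ k, M k) : (sinv x).1 = x.1 := rfl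

/-- a reduced list of syllables -/
def Red (l : List (Σ k, M k)) : Prop :=
  (∀ x ∈ l, x.2 ≠ 1) ∧ l.IsChain (fun x y => x.1 ≠ y.1)

/-- the group element of a list of syllables -/
def lprod (l : List (Σ k, M k)) : CoprodI M := (l.map (fun x => CoprodI.of x.2)).prod

@[simp] theorem lprod_nil : lprod ([] : List (Σ k, M k)) = 1 := rfl

@[simp] theorem lprod_cons (x : Σ k, M k) (l : List (Σ k, M k)) :
    lprod (x :: l) = CoprodI.of x.2 * lprod l := by
  unfold lprod; simp

@[simp] theorem lprod_append (l l' : List (Σ k, M k)) :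
    lprod (l ++ l') = lprod l * lprod l' := by
  unfold lprod; simp

theorem Red.nil : Red ([] : List (Σ k, M k)) := ⟨by simp, by simp⟩

theorem Red.single {x : Σ k, M k} (hx : x.2 ≠ 1) : Red [x] := ⟨by simpa using hx, by simp⟩

theorem Red.tail {x : Σ k, M k} {l : List (Σ k, M k)} (h : Red (x :: l)) : Red l :=
  ⟨fun y hy => h.1 y (List.mem_cons_of_mem _ hy), h.2.tail⟩

theorem Red.append {l l' : List (Σ k, M k)} (h : Red l) (h' : Red l')
    (hj : ∀ x ∈ l.getLast?, ∀ y ∈ l'.head?, x.1 ≠ y.1) : Red (l ++ l') := by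
  refine ⟨?_, List.isChain_append.2 ⟨h.2, h'.2, hj⟩⟩
  intro x hx
  rcases List.mem_append.1 hx with hx | hx
  · exact h.1 x hx
  · exact h'.1 x hx

theorem Red.left {l l' : List (Σ k, M k)} (h : Red (l ++ l')) : Red l :=
  ⟨fun y hy => h.1 y (List.mem_append_left _ hy), (List.isChain_append.1 h.2).1⟩

theorem Red.right {l l' : List (Σ k, M k)} (h : Red (l ++ l')) : Red l' :=
  ⟨fun y hy => h.1 y (List.mem_append_right _ hy), (List.isChain_append.1 h.2).2.1⟩

/-- the inverse list -/
def linv (l : List (Σ k, M k)) : List (Σ k, M k) := (l.map sinv).reverse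

@[simp] theorem linv_nil : linv ([] : List (Σ k, M k)) = [] := rfl

@[simp] theorem linv_cons (x : Σ k, M k) (l : List (Σ k, M k)) :
    linv (x :: l) = linv l ++ [sinv x] := by
  unfold linv; simp

@[simp] theorem linv_length (l : List (Σ k, M k)) : (linv l).length = l.length := by
  unfold linv; simp

theorem lprod_linv (l : List (Σ k, M k)) : lprod (linv l) = (lprod l)⁻¹ := by
  induction l with
  | nil => simp
  | cons x l ih =>
    rw [linv_cons, lprod_append, ih, lprod_cons, lprod_cons, lprod_nil, mul_one, mul_inv_rev]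
    unfold sinv
    simp

theorem Red.linv {l : List (Σ k, M k)} (h : Red l) : Red (linv l) := by
  constructor
  · intro x hx
    unfold SC.linv at hx
    rw [List.mem_reverse, List.mem_map] at hx
    obtain ⟨y, hy, rfl⟩ := hx
    unfold sinv
    exact inv_ne_one.2 (h.1 y hy)
  · unfold SC.linv
    rw [List.isChain_reverse, List.isChain_map]
    exact h.2.imp (fun a b hab => by
      unfold sinv
      exact hab.symm)

open Classical in
/-- syllable length -/
noncomputable def slen (g : CoprodI M) : ℕ := (CoprodI.Word.equiv g).toList.length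

open Classical in
theorem exists_red (g : CoprodI M) : ∃ l, Red l ∧ lprod l = g ∧ slen g = l.length := by
  refine ⟨(CoprodI.Word.equiv g).toList, ⟨(CoprodI.Word.equiv g).ne_one,
    (CoprodI.Word.equiv g).chain_ne⟩, ?_, rfl⟩
  exact CoprodI.Word.equiv.symm_apply_apply g

open Classical in
theorem red_unique {l l' : List (Σ k, M k)} (h : Red l) (h' : Red l') (he : lprod l = lprod l') :
    l = l' := by
  have h1 : CoprodI.Word.equiv (lprod l) = (⟨l, h.1, h.2⟩ : CoprodI.Word M) :=
    CoprodI.Word.equiv.apply_symm_apply (⟨l, h.1, h.2⟩ : CoprodI.Word M)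
  have h2 : CoprodI.Word.equiv (lprod l') = (⟨l', h'.1, h'.2⟩ : CoprodI.Word M) :=
    CoprodI.Word.equiv.apply_symm_apply (⟨l', h'.1, h'.2⟩ : CoprodI.Word M)
  rw [he, h2] at h1
  exact (congrArg CoprodI.Word.toList h1).symm

open Classical in
theorem slen_lprod {l : List (Σ k, M k)} (h : Red l) : slen (lprod l) = l.length := by
  have h1 : CoprodI.Word.equiv (lprod l) = (⟨l, h.1, h.2⟩ : CoprodI.Word M) :=
    CoprodI.Word.equiv.apply_symm_apply (⟨l, h.1, h.2⟩ : CoprodI.Word M)
  unfold slen
  rw [h1]

open Classical in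
/-- twice the Gromov product of reduced lists -/
noncomputable def cp : List (Σ k, M k) → List (Σ k, M k) → ℕ
  | x :: l, y :: l' => if x = y then 2 + cp l l' else if x.1 = y.1 then 1 else 0
  | _, _ => 0

theorem cp_nil_left (l : List (Σ k, M k)) : cp [] l = 0 := by
  cases l <;> simp [cp]

theorem cp_nil_right (l : List (Σ k, M k)) : cp l [] = 0 := by
  cases l <;> simp [cp]

theorem cp_cons (x y : Σ k, M k) (l l' : List (Σ k, M k)) [Decidable (x = y)]
    [Decidable (x.1 = y.1)] :
    cp (x :: l) (y :: l') = if x = y then 2 + cp l l' else if x.1 = y.1 then 1 else 0 := by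
  rw [cp]
  congr

open Classical in
theorem cp_ultra (l₁ l₂ l₃ : List (Σ k, M k)) : min (cp l₁ l₂) (cp l₂ l₃) ≤ cp l₁ l₃ := by
  induction l₁ generalizing l₂ l₃ with
  | nil => rw [cp_nil_left]; omega
  | cons x l₁ ih =>
    cases l₂ with
    | nil => rw [cp_nil_left, cp_nil_right]; omega
    | cons y l₂ =>
      cases l₃ with
      | nil => rw [cp_nil_right (y :: l₂)]; omega
      | cons z l₃ =>
        have := ih l₂ l₃
        rw [cp_cons, cp_cons, cp_cons]
        by_cases h1 : x = y
        · subst h1
          by_cases h2 : x = z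
          · subst h2
            simp only [if_true]
            omega
          · rw [if_pos rfl, if_neg h2, if_neg h2]
            omega
        · by_cases h2 : y = z
          · subst h2
            rw [if_pos rfl, if_neg h1, if_neg h1]
            omega
          · rw [if_neg h1, if_neg h2]
            by_cases h3 : x.1 = y.1
            · by_cases h4 : y.1 = z.1
              · have h5 : x.1 = z.1 := h3.trans h4
                rw [if_pos h3, if_pos h4, if_pos h5]
                by_cases h6 : x = z
                · rw [if_pos h6]; omega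
                · rw [if_neg h6]; omega
              · rw [if_neg h4]; omega
            · rw [if_neg h3]; omega

open Classical in
theorem cp_comm (l l' : List (Σ k, M k)) : cp l l' = cp l' l := by
  induction l generalizing l' with
  | nil => rw [cp_nil_left, cp_nil_right]
  | cons x l ih =>
    cases l' with
    | nil => rw [cp_nil_left, cp_nil_right]
    | cons y l' =>
      rw [cp_cons, cp_cons, ih]
      by_cases h1 : x = y
      · subst h1; simp
      · have h2 : ¬ y = x := fun h => h1 h.symm
        rw [if_neg h1, if_neg h2]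
        by_cases h3 : x.1 = y.1
        · rw [if_pos h3, if_pos h3.symm]
        · rw [if_neg h3, if_neg (fun h => h3 h.symm)]

theorem head_linv_last {x : Σ k, M k} {l : List (Σ k, M k)} (h : Red (x :: l)) :
    ∀ z ∈ (linv l).getLast?, z.1 ≠ x.1 := by
  intro z hz
  unfold linv at hz
  rw [List.getLast?_reverse, List.head?_map] at hz
  have h2 := h.2
  cases l with
  | nil => simp at hz
  | cons a l =>
    simp only [List.head?_cons, Option.map_some, Option.mem_def, Option.some.injEq] at hz
    subst hz
    rw [List.isChain_cons_cons] at h2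
    exact h2.1.symm

theorem head_ne {x : Σ k, M k} {l : List (Σ k, M k)} (h : Red (x :: l)) :
    ∀ z ∈ l.head?, x.1 ≠ z.1 := by
  intro z hz
  have h2 := h.2
  cases l with
  | nil => simp at hz
  | cons a l =>
    simp only [List.head?_cons, Option.mem_def, Option.some.injEq] at hz
    subst hz
    rw [List.isChain_cons_cons] at h2
    exact h2.1

open Classical in
theorem slen_inv_mul {l l' : List (Σ k, M k)} (h : Red l) (h' : Red l') :
    slen ((lprod l)⁻¹ * lprod l') + cp l l' = l.length + l'.length := by
  induction l generalizing l' with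
  | nil =>
    rw [cp_nil_left, lprod_nil, inv_one, one_mul, slen_lprod h']
    simp
  | cons x l ih =>
    cases l' with
    | nil =>
      rw [cp_nil_right, lprod_nil, mul_one, ← lprod_linv, slen_lprod h.linv]
      simp
    | cons y l' =>
      rw [cp_cons]
      by_cases h1 : x = y
      · subst h1
        rw [if_pos rfl]
        have := ih h.tail h'.tail
        have e : (lprod (x :: l))⁻¹ * lprod (x :: l') = (lprod l)⁻¹ * lprod l' := by
          rw [lprod_cons, lprod_cons]; group
        rw [e]
        simp only [List.length_cons]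
        omega
      · rw [if_neg h1]
        by_cases h2 : x.1 = y.1
        · rw [if_pos h2]
          obtain ⟨i, a⟩ := x
          obtain ⟨j, b⟩ := y
          simp only at h2
          subst h2
          have hab : a⁻¹ * b ≠ 1 := by
            intro hc
            apply h1
            rw [inv_mul_eq_one.1 hc]
          have e : (lprod (⟨i, a⟩ :: l))⁻¹ * lprod (⟨i, b⟩ :: l') =
              lprod (linv l ++ ([⟨i, a⁻¹ * b⟩] ++ l')) := by
            rw [lprod_append, lprod_append, lprod_cons, lprod_cons, lprod_cons, lprod_nil,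
              lprod_linv, map_mul, map_inv]
            group
          have hr : Red (linv l ++ ([⟨i, a⁻¹ * b⟩] ++ l')) := by
            apply h.tail.linv.append
            · apply (Red.single hab).append h'.tail
              intro z hz w hw
              simp only [List.getLast?_singleton, Option.mem_def, Option.some.injEq] at hz
              subst hz
              exact head_ne h' w hw
            · intro z hz w hw
              simp only [List.singleton_append, List.head?_cons, Option.mem_def,
                Option.some.injEq] at hw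
              subst hw
              exact head_linv_last h z hz
          rw [e, slen_lprod hr]
          simp only [List.length_append, linv_length, List.length_cons, List.length_nil]
          omega
        · rw [if_neg h2]
          have e : (lprod (x :: l))⁻¹ * lprod (y :: l') =
              lprod (linv (x :: l) ++ (y :: l')) := by
            rw [lprod_append, lprod_linv]
          have hr : Red (linv (x :: l) ++ (y :: l')) := by
            apply h.linv.append h'
            intro z hz w hw
            simp only [List.head?_cons, Option.mem_def, Option.some.injEq] at hw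
            subst hw
            rw [linv_cons] at hz
            simp only [List.getLast?_append, List.getLast?_singleton, Option.some_or,
              Option.mem_def, Option.some.injEq] at hz
            subst hz
            exact h2
          rw [e, slen_lprod hr]
          simp only [List.length_append, linv_length, List.length_cons]
          omega

theorem slen_one : slen (1 : CoprodI M) = 0 := by
  have := slen_lprod (M := M) Red.nil
  simpa using this

theorem slen_inv (g : CoprodI M) : slen g⁻¹ = slen g := by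
  obtain ⟨l, hl, rfl, h⟩ := exists_red g
  rw [h, ← lprod_linv, slen_lprod hl.linv, linv_length]

variable (M) in
/-- free products have an integer Lyndon length -/
noncomputable def freeLen : LenGroup (CoprodI M) where
  len := slen
  len_one := slen_one
  eq_one g h := by
    obtain ⟨l, hl, rfl, h'⟩ := exists_red g
    rw [h'] at h
    rw [List.length_eq_zero_iff.1 h, lprod_nil]
  len_inv := slen_inv
  fp u v w z := by
    obtain ⟨l₁, h₁, e₁, n₁⟩ := exists_red (z⁻¹ * u)
    obtain ⟨l₂, h₂, e₂, n₂⟩ := exists_red (z⁻¹ * v)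
    obtain ⟨l₃, h₃, e₃, n₃⟩ := exists_red (z⁻¹ * w)
    have a12 := slen_inv_mul h₁ h₂
    have a13 := slen_inv_mul h₁ h₃
    have a23 := slen_inv_mul h₂ h₃
    rw [e₁, e₂] at a12
    rw [e₁, e₃] at a13
    rw [e₂, e₃] at a23
    have f12 : (z⁻¹ * u)⁻¹ * (z⁻¹ * v) = u⁻¹ * v := by group
    have f13 : (z⁻¹ * u)⁻¹ * (z⁻¹ * w) = u⁻¹ * w := by group
    have f23 : (z⁻¹ * v)⁻¹ * (z⁻¹ * w) = v⁻¹ * w := by group
    rw [f12] at a12
    rw [f13] at a13
    rw [f23] at a23
    have g1 : slen (w⁻¹ * z) = slen (z⁻¹ * w) := by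
      rw [← slen_inv]; congr 1; group
    have g2 : slen (v⁻¹ * z) = slen (z⁻¹ * v) := by
      rw [← slen_inv]; congr 1; group
    have g3 : slen (u⁻¹ * z) = slen (z⁻¹ * u) := by
      rw [← slen_inv]; congr 1; group
    have hu := cp_ultra l₁ l₃ l₂
    rw [cp_comm l₃ l₂] at hu
    omega
  step g hg := by
    obtain ⟨l, hl, rfl, h'⟩ := exists_red g
    rcases List.eq_nil_or_concat l with rfl | ⟨l', x, rfl⟩
    · exact absurd lprod_nil hg
    · rw [List.concat_eq_append] at *
      refine ⟨lprod l', ?_, ?_⟩
      · rw [slen_lprod hl.left, h']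
        simp
      · have : (lprod l')⁻¹ * lprod (l' ++ [x]) = lprod [x] := by
          rw [lprod_append]; group
        rw [this, slen_lprod hl.right]
        simp

/-! ### bi-infinite sequences -/

/-- window of a sequence -/
def win (s : ℤ → Σ k, M k) (k : ℤ) (n : ℕ) : List (Σ k, M k) :=
  (List.range n).map (fun e : ℕ => s (k + (e : ℤ)))

@[simp] theorem win_length (s : ℤ → Σ k, M k) (k : ℤ) (n : ℕ) : (win s k n).length = n := by
  unfold win; simp

theorem win_succ (s : ℤ → Σ k, M k) (k : ℤ) (n : ℕ) :
    win s k (n + 1) = win s k n ++ [s (k + n)] := by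
  unfold win
  rw [List.range_succ]
  simp

theorem win_succ' (s : ℤ → Σ k, M k) (k : ℤ) (n : ℕ) :
    win s k (n + 1) = s k :: win s (k + 1) n := by
  unfold win
  rw [List.range_succ_eq_map, List.map_cons, List.map_map, Nat.cast_zero, add_zero]
  congr 1
  apply List.map_congr_left
  intro a _
  change s (k + ((a + 1 : ℕ) : ℤ)) = s (k + 1 + (a : ℤ))
  congr 1
  push_cast
  ring

/-- a proper sequence of syllables -/
structure Alt (s : ℤ → Σ k, M k) : Prop where
  ne : ∀ k, (s k).2 ≠ 1
  alt : ∀ k, (s k).1 ≠ (s (k + 1)).1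

theorem Alt.red {s : ℤ → Σ k, M k} (h : Alt s) (k : ℤ) (n : ℕ) : Red (win s k n) := by
  induction n with
  | zero => exact Red.nil
  | succ n ih =>
    rw [win_succ]
    refine ih.append (Red.single (h.ne _)) ?_
    intro x hx y hy
    cases n with
    | zero => simp [win] at hx
    | succ m =>
      rw [win_succ] at hx
      simp only [List.getLast?_append, List.getLast?_singleton, Option.some_or, Option.mem_def,
        Option.some.injEq] at hx
      simp only [List.head?_cons, Option.mem_def, Option.some.injEq] at hy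
      subst hx hy
      have := h.alt (k + m)
      rwa [add_assoc] at this

/-- the line of a sequence -/
def yl (s : ℤ → Σ k, M k) : ℤ → CoprodI M
  | Int.ofNat n => lprod (win s 0 n)
  | Int.negSucc n => (lprod (win s (-((n : ℤ) + 1)) (n + 1)))⁻¹

theorem yl_zero (s : ℤ → Σ k, M k) : yl s 0 = 1 := rfl

theorem yl_nat (s : ℤ → Σ k, M k) (n : ℕ) : yl s n = lprod (win s 0 n) := rfl

theorem yl_succ (s : ℤ → Σ k, M k) (k : ℤ) : yl s (k + 1) = yl s k * CoprodI.of (s k).2 := by
  match k with
  | Int.ofNat n =>
    change lprod (win s 0 (n + 1)) = lprod (win s 0 n) * CoprodI.of (s n).2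
    rw [win_succ, lprod_append, lprod_cons, lprod_nil, mul_one, zero_add]
  | Int.negSucc 0 =>
    change (1 : CoprodI M) = (lprod (win s (-(((0 : ℕ) : ℤ) + 1)) 1))⁻¹ * CoprodI.of (s (-1)).2
    rw [win_succ]
    simp [win]
  | Int.negSucc (n + 1) =>
    change (lprod (win s (-((n : ℤ) + 1)) (n + 1)))⁻¹ =
      (lprod (win s (-(((n + 1 : ℕ) : ℤ) + 1)) (n + 1 + 1)))⁻¹ *
        CoprodI.of (s (-(((n + 1 : ℕ) : ℤ) + 1))).2
    rw [win_succ' s (-(((n + 1 : ℕ) : ℤ) + 1)) (n + 1), lprod_cons, mul_inv_rev, inv_mul_cancel_right]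
    have e : -(((n + 1 : ℕ) : ℤ) + 1) + 1 = -((n : ℤ) + 1) := by push_cast; ring
    rw [e]

theorem yl_add (s : ℤ → Σ k, M k) (k : ℤ) (n : ℕ) : yl s (k + n) = yl s k * lprod (win s k n) := by
  induction n with
  | zero => simp [win]
  | succ n ih =>
    have : k + ((n + 1 : ℕ) : ℤ) = (k + n) + 1 := by push_cast; ring
    rw [this, yl_succ, ih, win_succ, lprod_append, lprod_cons, lprod_nil, mul_one, mul_assoc]

theorem yl_line {s : ℤ → Σ k, M k} (h : Alt s) (a b : ℤ) :
    slen ((yl s a)⁻¹ * yl s b) = (a - b).natAbs := by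
  rcases le_total a b with hab | hab
  · obtain ⟨n, rfl⟩ : ∃ n : ℕ, b = a + n := ⟨(b - a).toNat, by omega⟩
    rw [yl_add, inv_mul_cancel_left, slen_lprod (h.red a n), win_length]
    omega
  · obtain ⟨n, rfl⟩ : ∃ n : ℕ, a = b + n := ⟨(a - b).toNat, by omega⟩
    rw [← slen_inv, mul_inv_rev, inv_inv, yl_add, inv_mul_cancel_left, slen_lprod (h.red b n),
      win_length]
    omega

theorem yl_per {s : ℤ → Σ k, M k} {τ : ℤ} (h : ∀ k, s (k + τ) = s k) (k : ℤ) :
    yl s τ * yl s k = yl s (k + τ) := by
  induction k using Int.induction_on with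
  | zero => rw [yl_zero, mul_one, zero_add]
  | succ i ih =>
    rw [yl_succ, ← mul_assoc, ih]
    have : (i : ℤ) + 1 + τ = (i + τ) + 1 := by ring
    rw [this, yl_succ, h]
  | pred i ih =>
    have h1 := yl_succ s (-(i : ℤ) - 1)
    rw [sub_add_cancel] at h1
    have h2 := yl_succ s (-(i : ℤ) - 1 + τ)
    have e : -(i : ℤ) - 1 + τ + 1 = -i + τ := by ring
    rw [e, ← ih, h1, h, ← mul_assoc] at h2
    exact mul_right_cancel h2

theorem of_inj {x y : Σ k, M k} (hx : x.2 ≠ 1) (hy : y.2 ≠ 1)
    (h : (CoprodI.of x.2 : CoprodI M) = CoprodI.of y.2) : x = y := by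
  have := red_unique (Red.single hx) (Red.single hy) (by simpa using h)
  simpa using this

theorem yl_step (s : ℤ → Σ k, M k) (k : ℤ) : (yl s k)⁻¹ * yl s (k + 1) = CoprodI.of (s k).2 := by
  rw [yl_succ, inv_mul_cancel_left]

theorem yl_match_pos {s s' : ℤ → Σ k, M k} {g : CoprodI M} {k k' : ℤ}
    (h0 : yl s k = g * yl s' k') (h : ∀ e : ℤ, s (k + e) = s' (k' + e)) (e : ℤ) :
    yl s (k + e) = g * yl s' (k' + e) := by
  induction e using Int.induction_on with
  | zero => simpa using h0
  | succ i ih =>
    rw [← add_assoc, ← add_assoc, yl_succ, yl_succ, ih, h, mul_assoc]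
  | pred i ih =>
    have h1 := yl_succ s (k + (-(i : ℤ) - 1))
    have h2 := yl_succ s' (k' + (-(i : ℤ) - 1))
    have e1 : k + (-(i : ℤ) - 1) + 1 = k + -i := by ring
    have e2 : k' + (-(i : ℤ) - 1) + 1 = k' + -i := by ring
    rw [e1, ih] at h1
    rw [e2] at h2
    rw [h2, h, ← mul_assoc] at h1
    exact (mul_right_cancel h1).symm

theorem yl_match_neg {s s' : ℤ → Σ k, M k} {g : CoprodI M} {k k' : ℤ}
    (h0 : yl s k = g * yl s' (k' + 1)) (h : ∀ e : ℤ, s (k + e) = sinv (s' (k' - e))) (e : ℤ) :
    yl s (k + e) = g * yl s' (k' + 1 - e) := by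
  have hinv : ∀ e : ℤ, (CoprodI.of (s (k + e)).2 : CoprodI M) = (CoprodI.of (s' (k' - e)).2)⁻¹ := by
    intro e
    rw [h e]
    unfold sinv
    simp
  induction e using Int.induction_on with
  | zero => simpa using h0
  | succ i ih =>
    have h2 := yl_succ s' (k' - i)
    have e2 : k' - (i : ℤ) + 1 = k' + 1 - i := by ring
    have e3 : k' + 1 - ((i : ℤ) + 1) = k' - i := by ring
    rw [e2] at h2
    rw [← add_assoc, yl_succ, ih, h2, hinv, e3]
    group
  | pred i ih =>
    have h1 := yl_succ s (k + (-(i : ℤ) - 1))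
    have e1 : k + (-(i : ℤ) - 1) + 1 = k + -i := by ring
    rw [e1, ih, hinv] at h1
    have h2 := yl_succ s' (k' + 1 - -(i : ℤ))
    have e2 : k' + 1 - -(i : ℤ) + 1 = k' + 1 - (-i - 1) := by ring
    have e3 : k' - (-(i : ℤ) - 1) = k' + 1 - -i := by ring
    rw [e3] at h1
    rw [← e2, h2, ← mul_assoc, h1]
    group

/-- data for the small cancellation theorem over a free product -/
theorem sc_seq_quant {ι : Type*} (s : ι → ℤ → Σ k, M k) (τ : ι → ℕ)
    (halt : ∀ i, Alt (s i)) (hper : ∀ i k, s i (k + τ i) = s i k) (hτ : ∀ i, 1000 ≤ τ i)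
    (hpos : ∀ i j k k', (∀ e : ℕ, e < τ i / 50 → s i (k + e) = s j (k' + e)) →
      τ i = τ j ∧ ∀ e : ℤ, s i (k + e) = s j (k' + e))
    (hneg : ∀ i j k k', (∀ e : ℕ, e < τ i / 50 → s i (k + e) = sinv (s j (k' - e))) →
      τ i = τ j ∧ ∀ e : ℤ, s i (k + e) = sinv (s j (k' - e))) :
    ∀ n ∈ Subgroup.normalClosure (Set.range fun i => lprod (win (s i) 0 (τ i))), n ≠ 1 →
      ∃ i, 2 * τ i ≤ 2 * slen n + (8 * (τ i / 50) + 4) := by
  refine sc_quant (freeLen M) (fun i => yl (s i)) (fun i => lprod (win (s i) 0 (τ i))) τ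
    (fun i a b => yl_line (halt i) a b) (fun i k => yl_per (hper i) k) hτ ?_
  intro i j g k k' ε hε h
  have h0 := h 0 (by omega)
  simp only [Nat.cast_zero, mul_zero, add_zero] at h0
  rcases hε with rfl | rfl
  · have h1 : ∀ e : ℕ, e < τ i / 50 → s i (k + e) = s j (k' + e) := by
      intro e he
      have a := h e (by omega)
      have b := h (e + 1) (by omega)
      push_cast at b
      rw [one_mul] at a b
      rw [← add_assoc, ← add_assoc, yl_succ, yl_succ, a, mul_assoc] at b
      exact of_inj ((halt i).ne _) ((halt j).ne _) (mul_left_cancel (mul_left_cancel b))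
    obtain ⟨h2, h3⟩ := hpos i j k k' h1
    refine ⟨?_, h2⟩
    have h4 := yl_match_pos h0 h3
    ext w
    constructor
    · rintro ⟨a, rfl⟩
      have := h4 (a - k)
      rw [add_sub_cancel] at this
      exact ⟨_, ⟨k' + (a - k), rfl⟩, this.symm⟩
    · rintro ⟨_, ⟨a, rfl⟩, rfl⟩
      have := h4 (a - k')
      rw [add_sub_cancel] at this
      exact ⟨k + (a - k'), this⟩
  · have h1 : ∀ e : ℕ, e < τ i / 50 → s i (k + e) = sinv (s j (k' - 1 - e)) := by
      intro e he
      have a := h e (by omega)
      have b := h (e + 1) (by omega)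
      push_cast at b
      have c := yl_succ (s j) (k' - 1 - e)
      have e1 : k' - 1 - (e : ℤ) + 1 = k' + -1 * e := by ring
      have e2 : k' + -1 * ((e : ℤ) + 1) = k' - 1 - e := by ring
      rw [← add_assoc, yl_succ, a, e2] at b
      rw [e1] at c
      rw [c] at b
      apply of_inj ((halt i).ne _)
      · unfold sinv
        exact inv_ne_one.2 ((halt j).ne _)
      · unfold sinv
        rw [map_inv]
        rw [mul_assoc, mul_assoc] at b
        have d := mul_left_cancel b
        exact (inv_eq_of_mul_eq_one_right (mul_eq_left.1 d)).symm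
    obtain ⟨h2, h3⟩ := hneg i j k (k' - 1) h1
    refine ⟨?_, h2⟩
    have h0' : yl (s i) k = g * yl (s j) (k' - 1 + 1) := by rw [sub_add_cancel]; exact h0
    have h4 := yl_match_neg h0' h3
    ext w
    constructor
    · rintro ⟨a, rfl⟩
      have := h4 (a - k)
      rw [add_sub_cancel] at this
      exact ⟨_, ⟨_, rfl⟩, this.symm⟩
    · rintro ⟨_, ⟨a, rfl⟩, rfl⟩
      have := h4 (k' - a)
      have e1 : k' - 1 + 1 - (k' - a) = a := by ring
      rw [e1] at this
      exact ⟨_, this⟩

theorem sc_seq {ι : Type*} (s : ι → ℤ → Σ k, M k) (τ : ι → ℕ)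
    (halt : ∀ i, Alt (s i)) (hper : ∀ i k, s i (k + τ i) = s i k) (hτ : ∀ i, 1000 ≤ τ i)
    (hpos : ∀ i j k k', (∀ e : ℕ, e < τ i / 50 → s i (k + e) = s j (k' + e)) →
      τ i = τ j ∧ ∀ e : ℤ, s i (k + e) = s j (k' + e))
    (hneg : ∀ i j k k', (∀ e : ℕ, e < τ i / 50 → s i (k + e) = sinv (s j (k' - e))) →
      τ i = τ j ∧ ∀ e : ℤ, s i (k + e) = sinv (s j (k' - e))) :
    ∀ n ∈ Subgroup.normalClosure (Set.range fun i => lprod (win (s i) 0 (τ i))), n ≠ 1 →
      3 ≤ slen n := by
  intro n hn h1
  obtain ⟨i, hi⟩ := sc_seq_quant s τ halt hper hτ hpos hneg n hn h1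
  have := hτ i
  omega

end free

end Pool.Agent.Helper430.SC
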